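import Mathlib

set_option autoImplicit false

/-!
# `ℝ`, `ℓ₁` and `ℝ × ℓ₁`

Copied from helper210's file `Pool/Agent/Results/MP_2139d9_an/SupSum.lean`: `ℝ` and `ℓ₁` are
projective Banach lattices, but their `ℓ_∞`-sum `ℝ × ℓ₁` is not projective.
-/

namespace Pool.Agent.X171.SP.SupSum

open Filter Topology BoundedContinuousFunction

universe u v

/-- `X` is a (real) Banach lattice -/
class IsBanachLattice (X : Type u) [NormedAddCommGroup X] [NormedSpace ℝ X] [Lattice X] : Prop
    extends IsOrderedAddMonoid X, HasSolidNorm X, CompleteSpace X where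
  smul_nonneg' : ∀ (r : ℝ) (x : X), 0 ≤ r → 0 ≤ x → 0 ≤ r • x

/-- order ideals -/
def IsIdeal {X : Type u} [NormedAddCommGroup X] [NormedSpace ℝ X] [Lattice X]
    (J : Submodule ℝ X) : Prop :=
  ∀ x y : X, |x| ≤ |y| → y ∈ J → x ∈ J

/-- projective Banach lattices -/
def IsProjective (P : Type u) [NormedAddCommGroup P] [NormedSpace ℝ P] [Lattice P] : Prop :=
  ∀ (X : Type v) [NormedAddCommGroup X] [NormedSpace ℝ X] [Lattice X] [IsBanachLattice X]
    (J : Submodule ℝ X), IsClosed (J : Set X) → IsIdeal J →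
    ∀ T : P →L[ℝ] X ⧸ J,
      (∀ (p q : P) (x y : X), (Submodule.Quotient.mk x : X ⧸ J) = T p →
        (Submodule.Quotient.mk y : X ⧸ J) = T q →
        T (p ⊔ q) = (Submodule.Quotient.mk (x ⊔ y) : X ⧸ J)) →
      ∀ ε : ℝ, 0 < ε → ∃ S : P →L[ℝ] X, (∀ p q : P, S (p ⊔ q) = S p ⊔ S q) ∧
        (∀ p : P, (Submodule.Quotient.mk (S p) : X ⧸ J) = T p) ∧ ‖S‖ ≤ (1 + ε) * ‖T‖

/-! ### Preliminaries on Banach lattices -/

section prelim

variable {X : Type v} [NormedAddCommGroup X] [NormedSpace ℝ X] [Lattice X] [IsBanachLattice X]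

theorem smul_le {r : ℝ} (hr : 0 ≤ r) {x y : X} (h : x ≤ y) : r • x ≤ r • y := by
  have := IsBanachLattice.smul_nonneg' r (y - x) hr (sub_nonneg.2 h)
  rw [smul_sub] at this
  exact sub_nonneg.1 this

theorem smul_sup {r : ℝ} (hr : 0 < r) (x y : X) : r • (x ⊔ y) = r • x ⊔ r • y := by
  apply le_antisymm
  · have h1 : x ≤ r⁻¹ • (r • x ⊔ r • y) := by
      have := smul_le (inv_nonneg.2 hr.le) (le_sup_left : r • x ≤ r • x ⊔ r • y)
      rwa [smul_smul, inv_mul_cancel₀ hr.ne', one_smul] at this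
    have h2 : y ≤ r⁻¹ • (r • x ⊔ r • y) := by
      have := smul_le (inv_nonneg.2 hr.le) (le_sup_right : r • y ≤ r • x ⊔ r • y)
      rwa [smul_smul, inv_mul_cancel₀ hr.ne', one_smul] at this
    have h3 := smul_le hr.le (sup_le h1 h2)
    rwa [smul_smul, mul_inv_cancel₀ hr.ne', one_smul] at h3
  · exact sup_le (smul_le hr.le le_sup_left) (smul_le hr.le le_sup_right)

theorem inf_add_le' {a b c : X} (ha : 0 ≤ a) (hb : 0 ≤ b) (hc : 0 ≤ c) :
    a ⊓ (b + c) ≤ a ⊓ b + a ⊓ c := by
  rw [add_inf, inf_add, inf_add]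
  refine le_inf (le_inf ?_ ?_) (le_inf ?_ inf_le_right)
  · exact inf_le_left.trans (le_add_of_nonneg_right ha)
  · exact inf_le_left.trans (le_add_of_nonneg_left hb)
  · exact inf_le_left.trans (le_add_of_nonneg_right hc)

theorem disj_add {a b c : X} (ha : 0 ≤ a) (hb : 0 ≤ b) (hc : 0 ≤ c) (h1 : a ⊓ b = 0)
    (h2 : a ⊓ c = 0) : a ⊓ (b + c) = 0 := by
  apply le_antisymm
  · have := inf_add_le' ha hb hc
    rwa [h1, h2, add_zero] at this
  · exact le_inf ha (add_nonneg hb hc)

theorem disj_smul {a b : X} (ha : 0 ≤ a) (hb : 0 ≤ b) (h : a ⊓ b = 0) {r s : ℝ} (hr : 0 ≤ r)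
    (hs : 0 ≤ s) : (r • a) ⊓ (s • b) = 0 := by
  apply le_antisymm
  · have h1 : r • a ≤ (max (max r s) 1) • a := by
      have : (max (max r s) 1) • a - r • a = ((max (max r s) 1) - r) • a := by rw [sub_smul]
      rw [← sub_nonneg, this]
      exact IsBanachLattice.smul_nonneg' _ _
        (sub_nonneg.2 ((le_max_left r s).trans (le_max_left _ _))) ha
    have h2 : s • b ≤ (max (max r s) 1) • b := by
      have : (max (max r s) 1) • b - s • b = ((max (max r s) 1) - s) • b := by rw [sub_smul]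
      rw [← sub_nonneg, this]
      exact IsBanachLattice.smul_nonneg' _ _
        (sub_nonneg.2 ((le_max_right r s).trans (le_max_left _ _))) hb
    have hpos : 0 < max (max r s) 1 := lt_of_lt_of_le one_pos (le_max_right _ _)
    have h3 := smul_le (X := X) (inv_nonneg.2 hpos.le)
      (inf_le_inf h1 h2 |>.trans (le_refl _))
    have h4 : (max (max r s) 1)⁻¹ • (((max (max r s) 1) • a) ⊓ ((max (max r s) 1) • b)) ≤ a ⊓ b := by
      refine le_inf ?_ ?_
      · have := smul_le (X := X) (inv_nonneg.2 hpos.le)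
          (inf_le_left : ((max (max r s) 1) • a) ⊓ ((max (max r s) 1) • b) ≤ _)
        rwa [smul_smul, inv_mul_cancel₀ hpos.ne', one_smul] at this
      · have := smul_le (X := X) (inv_nonneg.2 hpos.le)
          (inf_le_right : ((max (max r s) 1) • a) ⊓ ((max (max r s) 1) • b) ≤ _)
        rwa [smul_smul, inv_mul_cancel₀ hpos.ne', one_smul] at this
    have h5 := smul_le (X := X) hpos.le (h3.trans h4)
    rw [smul_smul, mul_inv_cancel₀ hpos.ne', one_smul, h, smul_zero] at h5
    exact h5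
  · exact le_inf (IsBanachLattice.smul_nonneg' _ _ hr ha) (IsBanachLattice.smul_nonneg' _ _ hs hb)

theorem sup_zero_sub {a b : X} (h : a ⊓ b = 0) : (a - b) ⊔ 0 = a := by
  have h1 : (a - b) ⊔ 0 = a - a ⊓ b := by
    rw [sub_inf, sub_self, sup_comm]
  rw [h1, h, sub_zero]

theorem disj_sum {a : X} (ha : 0 ≤ a) {b : ℕ → X} (hb : ∀ n, 0 ≤ b n) (h : ∀ n, a ⊓ b n = 0)
    (N : ℕ) : a ⊓ ∑ n ∈ Finset.range N, b n = 0 := by
  induction N with
  | zero => simpa using ha
  | succ N ih =>
    rw [Finset.sum_range_succ]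
    exact disj_add ha (Finset.sum_nonneg fun n _ => hb n) (hb N) ih (h N)

theorem disj_sums {a b : ℕ → X} (ha : ∀ n, 0 ≤ a n) (hb : ∀ n, 0 ≤ b n)
    (h : ∀ n m, a n ⊓ b m = 0) (N : ℕ) :
    (∑ n ∈ Finset.range N, a n) ⊓ ∑ n ∈ Finset.range N, b n = 0 := by
  apply disj_sum (Finset.sum_nonneg fun n _ => ha n) hb
  intro m
  rw [inf_comm]
  apply disj_sum (hb m) ha
  intro n
  rw [inf_comm]
  exact h n m

theorem disj_hasSum {a b : ℕ → X} (ha : ∀ n, 0 ≤ a n) (hb : ∀ n, 0 ≤ b n)
    (h : ∀ n m, a n ⊓ b m = 0) {x y : X} (hx : HasSum a x) (hy : HasSum b y) : x ⊓ y = 0 := by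
  have h1 : Tendsto (fun N => (∑ n ∈ Finset.range N, a n) ⊓ ∑ n ∈ Finset.range N, b n) atTop
      (𝓝 (x ⊓ y)) :=
    (hx.tendsto_sum_nat).inf_nhds (hy.tendsto_sum_nat)
  refine tendsto_nhds_unique h1 ?_
  refine tendsto_const_nhds.congr fun N => (disj_sums ha hb h N).symm

theorem cont_mk (J : Submodule ℝ X) : Continuous (fun x : X => (Submodule.Quotient.mk x : X ⧸ J)) :=
  AddMonoidHomClass.continuous_of_bound J.mkQ 1 (fun x => by
    rw [one_mul]; exact Submodule.Quotient.norm_mk_le J x)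

theorem hasSum_mk (J : Submodule ℝ X) {a : ℕ → X} {s : X} (h : HasSum a s) :
    HasSum (fun n => (Submodule.Quotient.mk (a n) : X ⧸ J)) (Submodule.Quotient.mk s) :=
  h.map J.mkQ (cont_mk J)

end prelim

/-! ### The Banach lattice `ℓ₁` -/

/-- `ℓ₁`: Mathlib's `lp (fun _ : ℕ => ℝ) 1`, to be ordered coordinatewise -/
def L1 : Type := lp (fun _ : ℕ => ℝ) 1

noncomputable instance : NormedAddCommGroup L1 :=
  (lp.normedAddCommGroup : NormedAddCommGroup (lp (fun _ : ℕ => ℝ) 1))

noncomputable instance : NormedSpace ℝ L1 :=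
  (lp.instNormedSpace : NormedSpace ℝ (lp (fun _ : ℕ => ℝ) 1))

instance : CompleteSpace L1 :=
  (inferInstance : CompleteSpace (lp (fun _ : ℕ => ℝ) 1))

/-- the coordinates of an element of `ℓ₁` -/
def co (f : L1) : ℕ → ℝ := fun n => (id f : lp (fun _ : ℕ => ℝ) 1) n

/-- the element of `ℓ₁` with given coordinates -/
def ofCo (f : ℕ → ℝ) (hf : Summable fun n => |f n|) : L1 :=
  (⟨f, memℓp_gen (by simpa using hf)⟩ : lp (fun _ : ℕ => ℝ) 1)

@[simp] theorem co_ofCo (f : ℕ → ℝ) (hf : Summable fun n => |f n|) : co (ofCo f hf) = f := rfl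

@[simp] theorem co_add (f g : L1) (n : ℕ) : co (f + g) n = co f n + co g n := rfl

@[simp] theorem co_sub (f g : L1) (n : ℕ) : co (f - g) n = co f n - co g n := rfl

@[simp] theorem co_neg (f : L1) (n : ℕ) : co (-f) n = - co f n := rfl

@[simp] theorem co_zero (n : ℕ) : co 0 n = 0 := rfl

@[simp] theorem co_smul (r : ℝ) (f : L1) (n : ℕ) : co (r • f) n = r * co f n := rfl

theorem co_inj : Function.Injective co := fun _ _ h => lp.ext h

theorem hasSum_norm (f : L1) : HasSum (fun n => |co f n|) ‖f‖ := by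
  have h := lp.hasSum_norm (p := 1) (by simp) (id f : lp (fun _ : ℕ => ℝ) 1)
  simp only [ENNReal.toReal_one, Real.rpow_one, Real.norm_eq_abs] at h
  exact h

theorem summable_co (f : L1) : Summable fun n => |co f n| := (hasSum_norm f).summable

theorem norm_eq (f : L1) : ‖f‖ = ∑' n, |co f n| := (hasSum_norm f).tsum_eq.symm

noncomputable instance : Max L1 := ⟨fun f g => ofCo (fun n => co f n ⊔ co g n)
  (Summable.of_nonneg_of_le (fun _ => abs_nonneg _)
    (fun n => (abs_max_le_max_abs_abs).trans (max_le_add_of_nonneg (abs_nonneg _) (abs_nonneg _)))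
    ((summable_co f).add (summable_co g)))⟩

noncomputable instance : Min L1 := ⟨fun f g => ofCo (fun n => co f n ⊓ co g n)
  (Summable.of_nonneg_of_le (fun _ => abs_nonneg _)
    (fun n => (abs_min_le_max_abs_abs).trans (max_le_add_of_nonneg (abs_nonneg _) (abs_nonneg _)))
    ((summable_co f).add (summable_co g)))⟩

instance : LE L1 := ⟨fun f g => ∀ n, co f n ≤ co g n⟩

instance : LT L1 := ⟨fun f g => co f < co g⟩

/-- the coordinatewise order -/
noncomputable instance : Lattice L1 :=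
  Function.Injective.lattice co co_inj Iff.rfl Iff.rfl (fun _ _ => rfl) (fun _ _ => rfl)

theorem le_def (f g : L1) : f ≤ g ↔ ∀ n, co f n ≤ co g n := Iff.rfl

@[simp] theorem co_sup (f g : L1) (n : ℕ) : co (f ⊔ g) n = co f n ⊔ co g n := rfl

@[simp] theorem co_abs (f : L1) (n : ℕ) : co |f| n = |co f n| := rfl

instance : IsBanachLattice L1 where
  add_le_add_left := fun a b h c n => by
    show co (a + c) n ≤ co (b + c) n
    rw [co_add, co_add]
    exact add_le_add_left (h n) _
  solid := fun a b h => by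
    rw [norm_eq, norm_eq]
    exact (summable_co a).tsum_le_tsum (fun n => h n) (summable_co b)
  smul_nonneg' := fun r x hr hx n => by
    show 0 ≤ r * co x n
    exact mul_nonneg hr (hx n)

/-- unit vectors -/
noncomputable def e (n : ℕ) : L1 := (lp.single 1 n (1 : ℝ) : lp (fun _ : ℕ => ℝ) 1)

theorem co_e (n k : ℕ) : co (e n) k = if k = n then 1 else 0 := by
  show (lp.single 1 n (1 : ℝ) : lp (fun _ : ℕ => ℝ) 1) k = _
  rw [lp.single_apply, Pi.single_apply]

theorem e_nonneg (n : ℕ) : 0 ≤ e n := fun k => by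
  rw [co_e, co_zero]; split_ifs <;> norm_num

theorem norm_e (n : ℕ) : ‖e n‖ = 1 := by
  have := lp.norm_single (E := fun _ : ℕ => ℝ) (p := 1) one_pos n (1 : ℝ)
  rw [norm_one] at this
  exact this

theorem hasSum_e (f : L1) : HasSum (fun n => co f n • e n) f := by
  have h : HasSum (fun n => lp.single 1 n ((id f : lp (fun _ : ℕ => ℝ) 1) n))
    (id f : lp (fun _ : ℕ => ℝ) 1) :=
    lp.hasSum_single (p := 1) (by simp) (id f : lp (fun _ : ℕ => ℝ) 1)
  have h2 : (fun n => co f n • e n) =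
      fun n => (lp.single 1 n ((id f : lp (fun _ : ℕ => ℝ) 1) n) : lp (fun _ : ℕ => ℝ) 1) := ?_
  · rw [h2]; exact h
  funext n
  apply co_inj
  funext k
  rw [co_smul, co_e]
  show _ = (lp.single 1 n _ : lp (fun _ : ℕ => ℝ) 1) k
  rw [lp.single_apply, Pi.single_apply]
  split_ifs with hk
  · rw [mul_one]; rfl
  · rw [mul_zero]

/-! ### `ℓ₁` is projective -/

section projL1

variable {X : Type v} [NormedAddCommGroup X] [NormedSpace ℝ X] [Lattice X] [IsBanachLattice X]

theorem norm_le_of_nonneg {a b : X} (ha : 0 ≤ a) (hab : a ≤ b) : ‖a‖ ≤ ‖b‖ := by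
  apply norm_le_norm_of_abs_le_abs
  rw [abs_of_nonneg ha, abs_of_nonneg (ha.trans hab)]
  exact hab

theorem norm_sup_zero (a : X) : ‖a ⊔ 0‖ ≤ ‖a‖ := by
  apply norm_le_norm_of_abs_le_abs
  rw [abs_of_nonneg le_sup_right]
  exact sup_le (le_abs_self a) (abs_nonneg a)

/-- a disjoint positive bounded sequence gives a lattice homomorphism on `ℓ₁` -/
theorem exists_hom {x : ℕ → X} {C : ℝ} (hC : 0 ≤ C) (hx0 : ∀ n, 0 ≤ x n) (hxC : ∀ n, ‖x n‖ ≤ C)
    (hdis : ∀ n m, n ≠ m → x n ⊓ x m = 0) :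
    ∃ S : L1 →L[ℝ] X, (∀ p q, S (p ⊔ q) = S p ⊔ S q) ∧ (∀ n, S (e n) = x n) ∧ ‖S‖ ≤ C := by
  have hsum : ∀ f : L1, Summable fun n => co f n • x n := fun f => by
    refine Summable.of_norm_bounded (g := fun n => |co f n| * C) ((summable_co f).mul_right C)
      fun n => ?_
    rw [norm_smul, Real.norm_eq_abs]
    exact mul_le_mul_of_nonneg_left (hxC n) (abs_nonneg _)
  let S0 : L1 →ₗ[ℝ] X :=
    { toFun := fun f => ∑' n, co f n • x n
      map_add' := fun f g => by
        rw [← (hsum f).tsum_add (hsum g)]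
        congr 1
        funext n
        rw [co_add, add_smul]
      map_smul' := fun r f => by
        rw [RingHom.id_apply, ← (hsum f).tsum_const_smul r]
        congr 1
        funext n
        rw [co_smul, mul_smul] }
  have hbound : ∀ f, ‖S0 f‖ ≤ C * ‖f‖ := fun f => by
    have h1 : HasSum (fun n => |co f n| * C) (‖f‖ * C) := (hasSum_norm f).mul_right C
    rw [mul_comm]
    refine tsum_of_norm_bounded h1 fun n => ?_
    rw [norm_smul, Real.norm_eq_abs]
    exact mul_le_mul_of_nonneg_left (hxC n) (abs_nonneg _)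
  let S : L1 →L[ℝ] X := S0.mkContinuous C hbound
  have hS : ∀ f, HasSum (fun n => co f n • x n) (S f) := fun f => (hsum f).hasSum
  have hdisj : ∀ f : L1, S (f ⊔ 0) ⊓ S ((-f) ⊔ 0) = 0 := by
    intro f
    refine disj_hasSum ?_ ?_ ?_ (hS _) (hS _)
    · intro n
      exact IsBanachLattice.smul_nonneg' _ _ (by simp) (hx0 n)
    · intro n
      exact IsBanachLattice.smul_nonneg' _ _ (by simp) (hx0 n)
    · intro n m
      by_cases hnm : n = m
      · subst hnm
        rcases le_total (co f n) 0 with h | h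
        · have : co (f ⊔ 0) n = 0 := by rw [co_sup, co_zero]; exact sup_eq_right.2 h
          rw [this, zero_smul]
          exact inf_eq_left.2 (IsBanachLattice.smul_nonneg' _ _ (by simp) (hx0 n))
        · have : co ((-f) ⊔ 0) n = 0 := by
            rw [co_sup, co_zero, co_neg]; exact sup_eq_right.2 (by linarith)
          rw [this, zero_smul]
          exact inf_eq_right.2 (IsBanachLattice.smul_nonneg' _ _ (by simp) (hx0 n))
      · exact disj_smul (hx0 n) (hx0 m) (hdis n m hnm) (by simp) (by simp)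
  have hpos : ∀ f : L1, S (f ⊔ 0) = S f ⊔ 0 := by
    intro f
    have h1 : f = (f ⊔ 0) - ((-f) ⊔ 0) := by
      apply co_inj
      funext n
      rw [co_sub, co_sup, co_sup, co_neg, co_zero]
      rcases le_total (co f n) 0 with h | h
      · rw [max_eq_right h, max_eq_left (by linarith)]; ring
      · rw [max_eq_left h, max_eq_right (by linarith)]; ring
    have h2 : S f = S (f ⊔ 0) - S ((-f) ⊔ 0) := by rw [← map_sub, ← h1]
    rw [h2, sup_zero_sub (hdisj f)]
  refine ⟨S, fun p q => ?_, fun n => ?_, S0.mkContinuous_norm_le hC hbound⟩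
  · have h1 : p ⊔ q = (p - q) ⊔ 0 + q := by rw [sup_add, sub_add_cancel, zero_add]
    have h2 : S p ⊔ S q = (S p - S q) ⊔ 0 + S q := by rw [sup_add, sub_add_cancel, zero_add]
    rw [h1, map_add, hpos, map_sub, h2]
  · refine (hS (e n)).unique ?_
    have : (fun k => co (e n) k • x k) = fun k => if k = n then x n else 0 := by
      funext k
      rw [co_e]
      split_ifs with h
      · rw [one_smul, h]
      · rw [zero_smul]
    rw [this]
    exact hasSum_ite_eq n (x n)

theorem proj_L1 : IsProjective.{0, v} L1 := by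
  intro X _ _ _ _ J hJc hJ T hT ε hε
  haveI : IsClosed (J : Set X) := hJc
  rcases (norm_nonneg T).eq_or_lt with hT0 | hTpos
  · refine ⟨0, fun p q => by simp, fun p => ?_, by simp [← hT0]⟩
    have h1 : ‖T p‖ ≤ ‖T‖ * ‖p‖ := T.le_opNorm p
    rw [← hT0, zero_mul] at h1
    have h2 : T p = 0 := norm_le_zero_iff.1 h1
    rw [h2]
    simp
  set C : ℝ := (1 + ε) * ‖T‖ with hCdef
  have hC : 0 ≤ C := by positivity
  have hlift : ∀ n, ∃ z : X, (Submodule.Quotient.mk z : X ⧸ J) = T (e n) ∧ ‖z‖ ≤ C ∧ 0 ≤ z := by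
    intro n
    obtain ⟨z, hz, hzn⟩ := Submodule.Quotient.norm_mk_lt (T (e n)) (show 0 < ε * ‖T‖ by positivity)
    refine ⟨z ⊔ 0, ?_, ?_, le_sup_right⟩
    · have h1 := hT (e n) 0 z 0 hz (by simp)
      rw [sup_eq_left.2 (e_nonneg n)] at h1
      exact h1.symm
    · have h2 : ‖z ⊔ 0‖ ≤ ‖z‖ := norm_sup_zero z
      have h3 : ‖T (e n)‖ ≤ ‖T‖ * ‖e n‖ := T.le_opNorm _
      rw [norm_e, mul_one] at h3
      rw [hCdef]
      linarith
  choose z hz hzC hz0 using hlift
  -- the sequence `a n = 2 ^ (-n) z n` and its sum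
  let a : ℕ → X := fun n => ((1 / 2 : ℝ) ^ n) • z n
  have ha0 : ∀ n, 0 ≤ a n := fun n => IsBanachLattice.smul_nonneg' _ _ (by positivity) (hz0 n)
  have hasum : Summable a := by
    refine Summable.of_norm_bounded (g := fun n => (1 / 2 : ℝ) ^ n * C)
      ((summable_geometric_of_lt_one (by norm_num) (by norm_num)).mul_right C) fun n => ?_
    rw [norm_smul, Real.norm_eq_abs, abs_of_nonneg (by positivity)]
    exact mul_le_mul_of_nonneg_left (hzC n) (by positivity)
  obtain ⟨s, hs⟩ := hasum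
  have has : ∀ n, a n ≤ s := fun n => le_hasSum hs n fun m _ => ha0 m
  have has2 : ∀ n m, n ≠ m → a n + a m ≤ s := fun n m hnm => by
    have := sum_le_hasSum {n, m} (fun k _ => ha0 k) hs
    rwa [Finset.sum_pair hnm] at this
  let u : L1 := ofCo (fun n => (1 / 2 : ℝ) ^ n) (by
    simpa [abs_of_nonneg] using summable_geometric_of_lt_one (r := (1 / 2 : ℝ)) (by norm_num)
      (by norm_num))
  have hu : HasSum (fun n => ((1 / 2 : ℝ) ^ n) • e n) u := hasSum_e u
  have hTu : (Submodule.Quotient.mk s : X ⧸ J) = T u := by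
    have h1 : HasSum (fun n => T (((1 / 2 : ℝ) ^ n) • e n)) (T u) := hu.mapL T
    have h2 := hasSum_mk J hs
    refine h2.unique ?_
    have h3 : (fun n => (Submodule.Quotient.mk (a n) : X ⧸ J)) =
        fun n => T (((1 / 2 : ℝ) ^ n) • e n) := by
      funext n
      rw [map_smul, ← hz n]
      rfl
    rw [h3]
    exact h1
  -- the disjoint lift
  let x : ℕ → X := fun n => ((2 : ℝ) ^ n) • ((a n + a n - s) ⊔ 0)
  have hx : ∀ n, (Submodule.Quotient.mk (x n) : X ⧸ J) = T (e n) := by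
    intro n
    have h1 : e n = ((2 : ℝ) ^ n) • ((((1 / 2 : ℝ) ^ n) • e n + ((1 / 2 : ℝ) ^ n) • e n - u) ⊔ 0) := by
      apply co_inj
      funext k
      rw [co_smul, co_sup, co_sub, co_add, co_smul, co_zero, co_e]
      show _ = (2 : ℝ) ^ n * max (_ - (1 / 2 : ℝ) ^ k) 0
      split_ifs with h
      · subst h
        rw [mul_one, add_sub_cancel_right, max_eq_left (by positivity), ← mul_pow]
        norm_num
      · rw [mul_zero, add_zero, zero_sub, max_eq_right (by simp), mul_zero]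
    have h2 := hT (((1 / 2 : ℝ) ^ n) • e n + ((1 / 2 : ℝ) ^ n) • e n - u) 0 (a n + a n - s) 0
      (by
        rw [map_sub, map_add, map_smul, ← hz n, ← hTu]
        rfl) (by simp)
    rw [h1, map_smul, h2]
    rfl
  have hx0 : ∀ n, 0 ≤ x n := fun n =>
    IsBanachLattice.smul_nonneg' _ _ (by positivity) le_sup_right
  have hxz : ∀ n, x n ≤ z n := by
    intro n
    have h1 : (a n + a n - s) ⊔ 0 ≤ a n :=
      sup_le (by rw [sub_le_iff_le_add]; exact add_le_add le_rfl (has n)) (ha0 n)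
    have h2 := smul_le (show (0 : ℝ) ≤ 2 ^ n by positivity) h1
    have h3 : ((2 : ℝ) ^ n) • a n = z n := by
      show ((2 : ℝ) ^ n) • (((1 / 2 : ℝ) ^ n) • z n) = z n
      rw [smul_smul, ← mul_pow]
      norm_num
    rw [h3] at h2
    exact h2
  have hdis : ∀ n m, n ≠ m → x n ⊓ x m = 0 := by
    intro n m hnm
    apply disj_smul le_sup_right le_sup_right _ (by positivity) (by positivity)
    apply le_antisymm _ (le_inf le_sup_right le_sup_right)
    have h1 : a n + a n - s ≤ a n - a m := by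
      rw [sub_le_sub_iff]
      have := add_le_add (le_refl (a n)) (has2 n m hnm)
      calc a n + a n + a m = a n + (a n + a m) := by abel
        _ ≤ a n + s := this
    have h2 : a m + a m - s ≤ a m - a n := by
      rw [sub_le_sub_iff]
      have := add_le_add (le_refl (a m)) (has2 m n (Ne.symm hnm))
      calc a m + a m + a n = a m + (a m + a n) := by abel
        _ ≤ a m + s := this
    have h3 : ((a n - a m) ⊔ 0) ⊓ ((a m - a n) ⊔ 0) = 0 := by
      have := posPart_inf_negPart_eq_zero (a n - a m)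
      rwa [posPart_def, negPart_def, neg_sub] at this
    calc ((a n + a n - s) ⊔ 0) ⊓ ((a m + a m - s) ⊔ 0) ≤
        ((a n - a m) ⊔ 0) ⊓ ((a m - a n) ⊔ 0) :=
          inf_le_inf (sup_le_sup_right h1 0) (sup_le_sup_right h2 0)
      _ = 0 := h3
  obtain ⟨S, hS1, hS2, hS3⟩ := exists_hom hC hx0 (fun n => (norm_le_of_nonneg (hx0 n) (hxz n)).trans
    (hzC n)) hdis
  refine ⟨S, hS1, fun p => ?_, hS3⟩
  have h1 : HasSum (fun n => S (co p n • e n)) (S p) := (hasSum_e p).mapL S
  have h2 : HasSum (fun n => T (co p n • e n)) (T p) := (hasSum_e p).mapL T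
  refine (hasSum_mk J h1).unique ?_
  have h3 : (fun n => (Submodule.Quotient.mk (S (co p n • e n)) : X ⧸ J)) =
      fun n => T (co p n • e n) := by
    funext n
    rw [map_smul, map_smul, hS2, ← hx n]
    rfl
  rw [h3]
  exact h2

theorem proj_real : IsProjective.{0, v} ℝ := by
  intro X _ _ _ _ J hJc hJ T hT ε hε
  haveI : IsClosed (J : Set X) := hJc
  rcases (norm_nonneg T).eq_or_lt with hT0 | hTpos
  · refine ⟨0, fun p q => by simp, fun p => ?_, by simp [← hT0]⟩
    have h1 : ‖T p‖ ≤ ‖T‖ * ‖p‖ := T.le_opNorm p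
    rw [← hT0, zero_mul] at h1
    have h2 : T p = 0 := norm_le_zero_iff.1 h1
    rw [h2]
    simp
  obtain ⟨z', hz', hzn'⟩ := Submodule.Quotient.norm_mk_lt (T 1) (show 0 < ε * ‖T‖ by positivity)
  have h1 := hT 1 0 z' 0 hz' (by simp)
  rw [sup_eq_left.2 (zero_le_one' ℝ)] at h1
  set z : X := z' ⊔ 0 with hz
  have hz0 : 0 ≤ z := le_sup_right
  have hzn : ‖z‖ ≤ (1 + ε) * ‖T‖ := by
    have h2 : ‖z‖ ≤ ‖z'‖ := norm_sup_zero z'
    have h3 : ‖T 1‖ ≤ ‖T‖ * ‖(1 : ℝ)‖ := T.le_opNorm _
    rw [norm_one, mul_one] at h3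
    linarith
  refine ⟨ContinuousLinearMap.toSpanSingleton ℝ z, ?_, ?_, ?_⟩
  · have key : ∀ p q : ℝ, p ≤ q → (p ⊔ q) • z = (p • z) ⊔ (q • z) := by
      intro p q hpq
      rw [sup_eq_right.2 hpq, sup_eq_right.2]
      have := IsBanachLattice.smul_nonneg' (q - p) z (sub_nonneg.2 hpq) hz0
      rwa [sub_smul, sub_nonneg] at this
    intro p q
    simp only [ContinuousLinearMap.toSpanSingleton_apply]
    rcases le_total p q with h | h
    · exact key p q h
    · rw [sup_comm p q, sup_comm (p • z)]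
      exact key q p h
  · intro p
    rw [ContinuousLinearMap.toSpanSingleton_apply, Submodule.Quotient.mk_smul, ← h1, ← map_smul,
      smul_eq_mul, mul_one]
  · rw [ContinuousLinearMap.norm_toSpanSingleton]
    exact hzn

end projL1

/-! ### `ℝ × ℓ₁` is not projective -/

/-- the plane with the `ℓ₁`-norm -/
def Pl : Type := ℝ × ℝ

instance : AddCommGroup Pl := inferInstanceAs (AddCommGroup (ℝ × ℝ))

noncomputable instance : Lattice Pl := inferInstanceAs (Lattice (ℝ × ℝ))

noncomputable instance : Module ℝ Pl := inferInstanceAs (Module ℝ (ℝ × ℝ))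

instance : IsOrderedAddMonoid Pl := inferInstanceAs (IsOrderedAddMonoid (ℝ × ℝ))

noncomputable instance : NormedAddCommGroup Pl :=
  AddGroupNorm.toNormedAddCommGroup
    { toFun := fun x => |x.1| + |x.2|
      map_zero' := by
        show |(0 : ℝ)| + |(0 : ℝ)| = 0
        simp
      add_le' := fun x y => by
        show |x.1 + y.1| + |x.2 + y.2| ≤ |x.1| + |x.2| + (|y.1| + |y.2|)
        have h1 := abs_add_le x.1 y.1
        have h2 := abs_add_le x.2 y.2
        linarith
      neg' := fun x => by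
        show |-x.1| + |-x.2| = |x.1| + |x.2|
        rw [abs_neg, abs_neg]
      eq_zero_of_map_eq_zero' := fun x h => by
        have h' : |x.1| + |x.2| = 0 := h
        have h1 : x.1 = 0 := abs_eq_zero.1 (by linarith [abs_nonneg x.1, abs_nonneg x.2])
        have h2 : x.2 = 0 := abs_eq_zero.1 (by linarith [abs_nonneg x.1, abs_nonneg x.2])
        exact Prod.ext h1 h2 }

theorem norm_pl (x : Pl) : ‖x‖ = |x.1| + |x.2| := rfl

/-- points of the plane -/
def mkPl (a b : ℝ) : Pl := ((a, b) : ℝ × ℝ)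

theorem norm_mkPl (a b : ℝ) : ‖mkPl a b‖ = |a| + |b| := rfl

noncomputable instance : NormedSpace ℝ Pl where
  norm_smul_le := fun r x => by
    show |r * x.1| + |r * x.2| ≤ |r| * (|x.1| + |x.2|)
    rw [abs_mul, abs_mul, mul_add]

instance : FiniteDimensional ℝ Pl := inferInstanceAs (FiniteDimensional ℝ (ℝ × ℝ))

instance : CompleteSpace Pl := FiniteDimensional.complete ℝ Pl

instance : HasSolidNorm Pl where
  solid := fun x y h => by
    have h1 : |x.1| ≤ |y.1| := h.1
    have h2 : |x.2| ≤ |y.2| := h.2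
    rw [norm_pl, norm_pl]
    linarith

/-- bounded sequences in the plane -/
abbrev BX : Type := ℕ →ᵇ Pl

instance : IsBanachLattice BX where
  smul_nonneg' := fun r x hr hx => by
    intro n
    have h := hx n
    exact ⟨mul_nonneg hr h.1, mul_nonneg hr h.2⟩

theorem coord_norm (x : BX) (n : ℕ) : |(x n).1| + |(x n).2| ≤ ‖x‖ := x.norm_coe_le_norm n

/-- the ideal `{(c, 0) : c ∈ c₀}` -/
def J : Submodule ℝ BX where
  carrier := {x | (∀ n, (x n).2 = 0) ∧ Tendsto (fun n => (x n).1) atTop (𝓝 0)}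
  add_mem' := fun {x y} hx hy => by
    refine ⟨fun n => ?_, ?_⟩
    · show (x n).2 + (y n).2 = 0
      rw [hx.1, hy.1, add_zero]
    · have := hx.2.add hy.2
      rw [add_zero] at this
      exact this
  zero_mem' := ⟨fun n => rfl, tendsto_const_nhds⟩
  smul_mem' := fun r x hx => by
    refine ⟨fun n => ?_, ?_⟩
    · show r * (x n).2 = 0
      rw [hx.1, mul_zero]
    · have := hx.2.const_mul r
      rw [mul_zero] at this
      exact this

theorem mem_J (x : BX) : x ∈ J ↔ (∀ n, (x n).2 = 0) ∧ Tendsto (fun n => (x n).1) atTop (𝓝 0) :=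
  Iff.rfl

theorem J_closed : IsClosed (J : Set BX) := by
  rw [← closure_subset_iff_isClosed]
  intro x hx
  rw [Metric.mem_closure_iff] at hx
  refine ⟨fun n => ?_, ?_⟩
  · by_contra h
    obtain ⟨y, hy, hxy⟩ := hx |(x n).2| (abs_pos.2 h)
    rw [dist_eq_norm] at hxy
    have h1 := coord_norm (x - y) n
    have h2 : ((x - y) n).2 = (x n).2 := by
      show (x n).2 - (y n).2 = (x n).2
      rw [hy.1, sub_zero]
    rw [h2] at h1
    linarith [abs_nonneg ((x - y) n).1]
  · rw [Metric.tendsto_atTop]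
    intro ε hε
    obtain ⟨y, hy, hxy⟩ := hx (ε / 2) (half_pos hε)
    obtain ⟨N, hN⟩ := (Metric.tendsto_atTop.1 hy.2) (ε / 2) (half_pos hε)
    refine ⟨N, fun n hn => ?_⟩
    rw [dist_eq_norm] at hxy
    have h1 := coord_norm (x - y) n
    have h2 : ((x - y) n).1 = (x n).1 - (y n).1 := rfl
    have h3 := hN n hn
    rw [Real.dist_eq, sub_zero] at h3 ⊢
    rw [h2] at h1
    have h4 : |(x n).1| ≤ |(x n).1 - (y n).1| + |(y n).1| := by
      have := abs_add_le ((x n).1 - (y n).1) (y n).1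
      rwa [sub_add_cancel] at this
    linarith [abs_nonneg ((x - y) n).2]

theorem J_ideal : IsIdeal J := by
  intro x y hxy hy
  have h : ∀ n, |(x n).1| ≤ |(y n).1| ∧ |(x n).2| ≤ |(y n).2| := fun n => hxy n
  refine ⟨fun n => ?_, ?_⟩
  · have := (h n).2
    rw [hy.1, abs_zero] at this
    exact abs_eq_zero.1 (le_antisymm this (abs_nonneg _))
  · refine squeeze_zero_norm (fun n => (h n).1) ?_
    have := hy.2.abs
    rwa [abs_zero] at this

/-- the map `(α, β) ↦ ((α, β n))_n` -/
noncomputable def L : (ℝ × L1) →ₗ[ℝ] BX where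
  toFun := fun p => BoundedContinuousFunction.ofNormedAddCommGroupDiscrete
    (fun n => mkPl p.1 (co p.2 n)) (|p.1| + ‖p.2‖) (fun n => by
      rw [norm_mkPl]
      have := le_hasSum (hasSum_norm p.2) n (fun _ _ => abs_nonneg _)
      linarith)
  map_add' := fun p q => by
    ext n
    rfl
  map_smul' := fun r p => by
    ext n
    rfl

theorem L_apply (p : ℝ × L1) (n : ℕ) : L p n = mkPl p.1 (co p.2 n) := rfl

theorem L_sup (p q : ℝ × L1) : L (p ⊔ q) = L p ⊔ L q := by
  ext n
  rfl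

theorem L_bound (p : ℝ × L1) : ‖(Submodule.Quotient.mk (L p) : BX ⧸ J)‖ ≤ 1 * ‖p‖ := by
  rw [one_mul]
  refine le_of_forall_pos_le_add fun δ hδ => ?_
  have hlim : Tendsto (fun n => |co p.2 n|) atTop (𝓝 0) := (summable_co p.2).tendsto_atTop_zero
  obtain ⟨N, hN⟩ := (Metric.tendsto_atTop.1 hlim) δ hδ
  let c : BX := BoundedContinuousFunction.ofNormedAddCommGroupDiscrete
    (fun n => if n < N then mkPl p.1 0 else mkPl 0 0) |p.1| (fun n => by
      split_ifs
      · rw [norm_mkPl, abs_zero, add_zero]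
      · rw [norm_mkPl, abs_zero, add_zero]; exact abs_nonneg _)
  have hc : ∀ n, c n = if n < N then mkPl p.1 0 else mkPl 0 0 := fun n => rfl
  have hcJ : c ∈ J := by
    refine ⟨fun n => ?_, ?_⟩
    · rw [hc]
      split_ifs <;> rfl
    · refine tendsto_const_nhds.congr' ?_
      filter_upwards [eventually_ge_atTop N] with n hn
      rw [hc, if_neg (not_lt.2 hn)]
      rfl
  have h1 : (Submodule.Quotient.mk (L p) : BX ⧸ J) = Submodule.Quotient.mk (L p - c) := by
    rw [Submodule.Quotient.eq]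
    simpa using hcJ
  rw [h1]
  refine (Submodule.Quotient.norm_mk_le J _).trans ?_
  have hp1 : |p.1| ≤ ‖p‖ := norm_fst_le p
  have hp2 : ‖p.2‖ ≤ ‖p‖ := norm_snd_le p
  rw [BoundedContinuousFunction.norm_le (by positivity)]
  intro n
  rw [norm_pl]
  show |p.1 - (c n).1| + |co p.2 n - (c n).2| ≤ ‖p‖ + δ
  rw [hc]
  split_ifs with h
  · show |p.1 - p.1| + |co p.2 n - 0| ≤ ‖p‖ + δ
    rw [sub_self, abs_zero, sub_zero, zero_add]
    have := le_hasSum (hasSum_norm p.2) n (fun _ _ => abs_nonneg _)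
    linarith
  · show |p.1 - 0| + |co p.2 n - 0| ≤ ‖p‖ + δ
    rw [sub_zero, sub_zero]
    have := hN n (not_lt.1 h)
    rw [Real.dist_eq, sub_zero, abs_abs] at this
    linarith

/-- the lattice homomorphism into the quotient -/
noncomputable def T : (ℝ × L1) →L[ℝ] BX ⧸ J :=
  (J.mkQ.comp L).mkContinuous 1 L_bound

theorem T_apply (p : ℝ × L1) : T p = Submodule.Quotient.mk (L p) := rfl

theorem mk_sup {x y x' y' : BX} (hx : (Submodule.Quotient.mk x : BX ⧸ J) = Submodule.Quotient.mk x')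
    (hy : (Submodule.Quotient.mk y : BX ⧸ J) = Submodule.Quotient.mk y') :
    (Submodule.Quotient.mk (x ⊔ y) : BX ⧸ J) = Submodule.Quotient.mk (x' ⊔ y') := by
  rw [Submodule.Quotient.eq] at hx hy
  have key : ∀ {x x' : BX} (z : BX), x - x' ∈ J →
      (Submodule.Quotient.mk (x ⊔ z) : BX ⧸ J) = Submodule.Quotient.mk (x' ⊔ z) := by
    intro x x' z h
    rw [Submodule.Quotient.eq]
    exact J_ideal _ _ (abs_sup_sub_sup_le_abs x x' z) h
  rw [key y hx, sup_comm x' y, key x' hy, sup_comm y' x']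

theorem not_proj : ¬ IsProjective.{0, 0} (ℝ × L1) := by
  intro h
  obtain ⟨S, hS1, hS2, hS3⟩ := h BX J J_closed J_ideal T (fun p q x y hx hy => by
    rw [T_apply] at hx hy ⊢
    rw [L_sup]
    exact (mk_sup hx hy).symm) (1 / 2) (by norm_num)
  have hT : ‖T‖ ≤ 1 := LinearMap.mkContinuous_norm_le _ zero_le_one _
  have hS : ‖S‖ ≤ 3 / 2 := by
    refine hS3.trans ?_
    linarith
  have hSpos : ∀ p, 0 ≤ p → 0 ≤ S p := by
    intro p hp
    have h1 := hS1 p 0
    rw [sup_eq_left.2 hp, map_zero] at h1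
    rw [h1]
    exact le_sup_right
  have hdiff : ∀ p, S p - L p ∈ J := fun p => by
    have := hS2 p
    rw [T_apply, Submodule.Quotient.eq] at this
    exact this
  have h1 := hdiff (1, 0)
  have hlim : Tendsto (fun n => (S (1, 0) n).1 - 1) atTop (𝓝 0) := h1.2
  have hkey : ∀ n, (S (1, 0) n).1 - 1 ≤ - (1 / 2) := by
    intro n
    have h2 : (S (0, e n) n).2 = 1 := by
      have := (hdiff (0, e n)).1 n
      have h3 : ((S (0, e n) - L (0, e n)) n).2 = (S (0, e n) n).2 - co (e n) n := rfl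
      rw [h3, co_e, if_pos rfl] at this
      linarith
    have h3 : (S (1, 0) n).2 = 0 := by
      have := (hdiff (1, 0)).1 n
      have h3 : ((S (1, 0) - L (1, 0)) n).2 = (S (1, 0) n).2 - 0 := rfl
      rw [h3] at this
      linarith
    have h4 : 0 ≤ (S (0, e n) n).1 := by
      have : (0 : ℝ × L1) ≤ (0, e n) := ⟨le_refl _, e_nonneg n⟩
      exact (hSpos _ this n).1
    have h5 : S (1, e n) = S (1, 0) + S (0, e n) := by
      rw [← map_add]
      congr 1
      ext1
      · simp
      · simp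
    have h6 : ‖((1, e n) : ℝ × L1)‖ = 1 := by
      rw [Prod.norm_def, norm_one, norm_e, max_self]
    have h7 := S.le_opNorm (1, e n)
    rw [h6, mul_one] at h7
    have h8 := coord_norm (S (1, e n)) n
    have h9 : (S (1, e n) n).1 = (S (1, 0) n).1 + (S (0, e n) n).1 := by rw [h5]; rfl
    have h10 : (S (1, e n) n).2 = (S (1, 0) n).2 + (S (0, e n) n).2 := by rw [h5]; rfl
    rw [h9, h10, h2, h3, zero_add, abs_one] at h8
    have h11 := le_abs_self ((S (1, 0) n).1 + (S (0, e n) n).1)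
    linarith
  have := le_of_tendsto hlim (Eventually.of_forall hkey)
  norm_num at this

instance : HasSolidNorm (ℝ × L1) where
  solid := fun x y h => by
    rw [Prod.norm_def, Prod.norm_def]
    exact max_le_max (norm_le_norm_of_abs_le_abs h.1) (norm_le_norm_of_abs_le_abs h.2)

end Pool.Agent.X171.SP.SupSum
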