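import Pool.Agent.X171.SP.Thm

/-!
# Reduction to separable Banach lattices
-/

open Filter
open scoped Topology

namespace Pool.Agent.X171.SP

open Pool.Agent.X171.BL

universe u v w

/-- terms for the elements of the countable set generated by a sequence -/
inductive Tm where
  | base (n : ℕ)
  | add (s t : Tm)
  | smul (q : ℚ) (t : Tm)
  | sup (s t : Tm)
  | jj (m : ℕ) (t : Tm)
  deriving Countable

section
variable {X : Type v} [NormedAddCommGroup X] [Lattice X] [NormedSpace ℝ X]

/-- evaluation of terms -/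
def Tm.eval (x : ℕ → X) (j : ℕ → X → X) : Tm → X
  | base n => x n
  | add s t => s.eval x j + t.eval x j
  | smul q t => (q : ℝ) • t.eval x j
  | sup s t => s.eval x j ⊔ t.eval x j
  | jj m t => j m (t.eval x j)

variable [BanachLattice X]

/-- the closed sublattice generated by `x` and `j` -/
noncomputable def gen (x : ℕ → X) (j : ℕ → X → X) : ClosedSublattice X where
  carrier := closure (Set.range (Tm.eval x j))
  zero_mem' := subset_closure ⟨.smul 0 (.base 0), by simp [Tm.eval]⟩
  add_mem' := fun ha hb => map_mem_closure₂ continuous_add ha hb (by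
    rintro _ ⟨s, rfl⟩ _ ⟨t, rfl⟩
    exact ⟨.add s t, rfl⟩)
  smul_mem' := by
    intro c a ha
    have h1 : ∀ b ∈ Set.range (Tm.eval x j), c • b ∈ closure (Set.range (Tm.eval x j)) := by
      rintro _ ⟨t, rfl⟩
      have hcl : IsClosed {c : ℝ | c • t.eval x j ∈ closure (Set.range (Tm.eval x j))} :=
        isClosed_closure.preimage (continuous_id.smul continuous_const)
      have hsub : closure (Set.range ((↑) : ℚ → ℝ)) ⊆
          {c : ℝ | c • t.eval x j ∈ closure (Set.range (Tm.eval x j))} := by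
        apply closure_minimal _ hcl
        rintro _ ⟨q, rfl⟩
        exact subset_closure ⟨.smul q t, rfl⟩
      exact hsub (Rat.denseRange_cast c)
    have h2 := map_mem_closure (continuous_const_smul c) ha h1
    rwa [closure_closure] at h2
  sup_mem' := fun a b ha hb => map_mem_closure₂ (f := fun a b : X => a ⊔ b) continuous_sup ha hb (by
    rintro _ ⟨s, rfl⟩ _ ⟨t, rfl⟩
    exact ⟨.sup s t, rfl⟩)
  closed' := isClosed_closure

lemma gen_separable (x : ℕ → X) (j : ℕ → X → X) :
    TopologicalSpace.SeparableSpace (gen x j).Ty := by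
  have h1 : TopologicalSpace.IsSeparable ((gen x j).toSubmodule : Set X) :=
    (Set.countable_range (Tm.eval x j)).isSeparable.closure
  exact h1.separableSpace

/-- the restriction of a closed ideal to a closed sublattice -/
def ClosedIdeal.restr (J : ClosedIdeal X) (L : ClosedSublattice X) : ClosedIdeal L.Ty where
  carrier := {b | L.incl b ∈ J}
  zero_mem' := J.toSubmodule.zero_mem
  add_mem' := fun ha hb => J.toSubmodule.add_mem ha hb
  smul_mem' := fun r _ hb => J.toSubmodule.smul_mem r hb
  solid' := fun b c hb hbc => J.solid' _ _ hb (by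
    rw [← L.incl_abs, ← L.incl_abs]
    exact hbc)
  closed' := by
    have h2 : IsClosed (J : Set X) := J.closed'
    exact h2.preimage L.incl.continuous

lemma smul_hom {A : Type u} [NormedAddCommGroup A] [Lattice A] [NormedSpace ℝ A]
    {φ : A →L[ℝ] X} (hφ : IsLatticeHom φ) {t : ℝ} (ht : 0 ≤ t) :
    IsLatticeHom (t • φ) := by
  rcases eq_or_lt_of_le ht with h | h
  · subst h
    refine ⟨fun x y => ?_, fun x y => ?_⟩ <;> simp
  · refine ⟨fun x y => ?_, fun x y => ?_⟩
    · rw [smul_apply, hφ.sup, smul_sup' h]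
      rfl
    · rw [smul_apply, hφ.inf, smul_inf' h]
      rfl

/-- **Reduction to separable lattices.** A lattice homomorphism from a separable Banach lattice
into `X / J` factors through `X₀ / (X₀ ∩ J)`, for a separable closed sublattice `X₀` of `X`, with
the same norms. -/
theorem exists_factor {A : Type u} [NormedAddCommGroup A] [Lattice A] [NormedSpace ℝ A]
    [TopologicalSpace.SeparableSpace A] (J : ClosedIdeal X) (T : A →L[ℝ] J.Quo)
    (hT : IsLatticeHom T) :
    ∃ L : ClosedSublattice X, TopologicalSpace.SeparableSpace L.Ty ∧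
      ∃ T₀ : A →L[ℝ] (J.restr L).Quo, IsLatticeHom T₀ ∧ ‖T₀‖ ≤ ‖T‖ ∧
        ∀ a b, (J.restr L).proj b = T₀ a → J.proj (L.incl b) = T a := by
  obtain ⟨a, ha⟩ := TopologicalSpace.exists_dense_seq A
  choose x hx using fun n => J.mk_surj (T (a n))
  have hj : ∀ (m : ℕ) (y : X), ∃ z, z ∈ J ∧ ‖y + z‖ < ‖J.proj y‖ + 1 / ((m : ℝ) + 1) := by
    intro m y
    obtain ⟨z, hz, hz'⟩ := J.exists_lift (J.proj y) (‖J.proj y‖ + 1 / ((m : ℝ) + 1)) (by
      have : (0 : ℝ) < 1 / ((m : ℝ) + 1) := by positivity
      linarith)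
    exact ⟨z - y, J.mk_eq_iff.1 hz, by rwa [add_sub_cancel]⟩
  choose j hj1 hj2 using hj
  set L := gen x j with hL
  have hxL : ∀ n, x n ∈ L.toSubmodule := fun n => subset_closure ⟨.base n, rfl⟩
  obtain ⟨W, hW, hW1, hW2⟩ := exists_desc (J.restr L).isQuotientMap_mk
    (S := J.proj.comp L.incl) (J.mk_hom.comp L.incl_hom) (fun b hb => by
      rw [(J.restr L).mk_eq_zero] at hb
      exact J.mk_eq_zero.2 hb)
  have hW1' : ∀ b, W ((J.restr L).proj b) = J.proj (L.incl b) := hW1
  have hWn : ∀ p, ‖W p‖ = ‖p‖ := by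
    intro p
    obtain ⟨b, rfl⟩ := (J.restr L).mk_surj p
    apply le_antisymm
    · have h1 : ‖W‖ ≤ 1 := hW2.trans (ContinuousLinearMap.opNorm_le_bound _ zero_le_one
        fun y => by
          rw [one_mul]
          exact J.norm_mk_le _)
      calc ‖W ((J.restr L).proj b)‖ ≤ ‖W‖ * ‖(J.restr L).proj b‖ := W.le_opNorm _
        _ ≤ 1 * ‖(J.restr L).proj b‖ := by gcongr
        _ = _ := one_mul _
    · rw [hW1']
      refine le_of_forall_pos_le_add fun ε hε => ?_
      obtain ⟨_, ⟨t, rfl⟩, hc⟩ := Metric.mem_closure_iff.1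
        (show L.incl b ∈ closure (Set.range (Tm.eval x j)) from b.2) (ε / 3) (by positivity)
      rw [dist_eq_norm] at hc
      obtain ⟨m, hm⟩ := exists_nat_one_div_lt (show (0 : ℝ) < ε / 3 by positivity)
      set y := t.eval x j with hy
      obtain ⟨c, hc'⟩ : ∃ c : L.Ty, L.incl c = y := ⟨⟨y, subset_closure ⟨t, rfl⟩⟩, rfl⟩
      obtain ⟨d, hd⟩ : ∃ d : L.Ty, L.incl d = y + j m y :=
        ⟨⟨y + j m y, subset_closure ⟨.add t (.jj m t), rfl⟩⟩, rfl⟩
      have h1 : (J.restr L).proj c = (J.restr L).proj d := by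
        rw [(J.restr L).mk_eq_iff]
        change L.incl (c - d) ∈ J
        rw [map_sub, hc', hd, sub_add_cancel_left]
        exact J.toSubmodule.neg_mem (hj1 m y)
      have h2 : ‖(J.restr L).proj c‖ ≤ ‖J.proj y‖ + ε / 3 := by
        rw [h1]
        refine ((J.restr L).norm_mk_le _).trans ?_
        rw [← L.norm_incl, hd]
        linarith [hj2 m y]
      have h3 : ‖(J.restr L).proj b‖ ≤ ‖(J.restr L).proj c‖ + ε / 3 := by
        have h4 : (J.restr L).proj b = (J.restr L).proj c + (J.restr L).proj (b - c) := by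
          rw [map_sub]; abel
        rw [h4]
        refine (norm_add_le _ _).trans ?_
        gcongr
        refine ((J.restr L).norm_mk_le _).trans ?_
        rw [← L.norm_incl, map_sub, hc']
        exact hc.le
      have h5 : ‖J.proj y‖ ≤ ‖J.proj (L.incl b)‖ + ε / 3 := by
        have h4 : J.proj y = J.proj (L.incl b) - J.proj (L.incl b - y) := by
          rw [map_sub]; abel
        rw [h4]
        refine (norm_sub_le _ _).trans ?_
        gcongr
        exact (J.norm_mk_le _).trans hc.le
      linarith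
  have hWinj : ∀ p q, W p = W q → p = q := by
    intro p q hpq
    have h1 := hWn (p - q)
    rw [map_sub, hpq, sub_self, norm_zero] at h1
    exact sub_eq_zero.1 (norm_eq_zero.1 h1.symm)
  -- the range of `W` is closed
  have hWcl : IsClosed (Set.range W) := by
    have h1 : Isometry W := AddMonoidHomClass.isometry_of_norm W hWn
    exact h1.isClosedEmbedding.isClosed_range
  have hTr : ∀ c, T c ∈ Set.range W := by
    intro c
    have hcl : IsClosed {c : A | T c ∈ Set.range W} := hWcl.preimage T.continuous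
    refine closure_minimal ?_ hcl (ha c)
    rintro _ ⟨n, rfl⟩
    obtain ⟨y, hy⟩ : ∃ y : L.Ty, L.incl y = x n := ⟨⟨x n, hxL n⟩, rfl⟩
    exact ⟨(J.restr L).proj y, by
      rw [hW1', hy]
      exact hx n⟩
  choose T₀ hT₀ using hTr
  let S : A →L[ℝ] (J.restr L).Quo := LinearMap.mkContinuous
    { toFun := T₀
      map_add' := fun b c => hWinj _ _ (by rw [map_add, hT₀, hT₀, hT₀, map_add])
      map_smul' := fun r b => hWinj _ _ (by
        rw [RingHom.id_apply, map_smul, hT₀, hT₀, map_smul]) } ‖T‖ fun b => by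
        change ‖T₀ b‖ ≤ _
        rw [← hWn, hT₀]
        exact T.le_opNorm b
  have hS : ∀ b, W (S b) = T b := hT₀
  refine ⟨L, gen_separable x j, S, ⟨fun b c => hWinj _ _ ?_, fun b c => hWinj _ _ ?_⟩,
    LinearMap.mkContinuous_norm_le _ (norm_nonneg _) _, fun c b hb => ?_⟩
  · rw [hS, hW.sup, hS, hS, hT.sup]
  · rw [hS, hW.inf, hS, hS, hT.inf]
  · rw [← hW1', hb, hS]

/-- **Theorem.** Separable semiprojective Banach lattices are `1⁺`-projective. -/
theorem onePlusProjective_of_semiprojective {A : Type u} [NormedAddCommGroup A] [Lattice A]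
    [NormedSpace ℝ A] [TopologicalSpace.SeparableSpace A] (hA : Semiprojective.{u, v} A) :
    OnePlusProjective.{u, v} A := by
  intro X _ _ _ _ J T hT ε hε
  rcases eq_or_ne T 0 with hT0 | hT0
  · subst hT0
    refine ⟨0, ⟨fun x y => by simp, fun x y => by simp⟩, fun p => by simp, ?_⟩
    rw [norm_zero, norm_zero, mul_zero]
  · have hTn : 0 < ‖T‖ := norm_pos_iff.2 hT0
    obtain ⟨L, hsep, T₀, h1, h2, h3⟩ := exists_factor J T hT
    obtain ⟨ψ, hψ, hψ1, hψ2⟩ := lift_of_semiprojective hA (J.restr L) (‖T‖⁻¹ • T₀)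
      (smul_hom h1 (by positivity)) (by
        rw [norm_smul, norm_inv, norm_norm, inv_mul_le_iff₀ hTn, mul_one]
        exact h2) ε hε
    refine ⟨‖T‖ • (L.incl.comp ψ), smul_hom (L.incl_hom.comp hψ) hTn.le, fun a => ?_, ?_⟩
    · have h4 := hψ1 (‖T‖ • a)
      rw [smul_apply, map_smul T₀, smul_smul, inv_mul_cancel₀ hTn.ne', one_smul] at h4
      rw [smul_apply, ← h3 a _ h4, map_smul ψ, map_smul L.incl]
      rfl
    · rw [norm_smul, norm_norm, mul_comm]
      gcongr
      refine (ContinuousLinearMap.opNorm_le_bound _ (norm_nonneg ψ) fun a => ?_).trans hψ2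
      change ‖L.incl (ψ a)‖ ≤ _
      rw [L.norm_incl]
      exact ψ.le_opNorm a

end

end Pool.Agent.X171.SP
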