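import Pool.Agent.X171.SP.Quo

/-!
# Semiprojective, `1⁺`-projective and `ℓ`-open Banach lattices
-/

open Filter
open scoped Topology

namespace Pool.Agent.X171.SP

open Pool.Agent.X171.BL

universe u v w

section

variable (A : Type u) [NormedAddCommGroup A] [Lattice A] [NormedSpace ℝ A]

/-- `1⁺`-projective Banach lattices: every lattice homomorphism `T : A → X / J` lifts, for every
`ε > 0`, to a lattice homomorphism `S : A → X` with `‖S‖ ≤ (1 + ε) * ‖T‖`. -/
def OnePlusProjective : Prop :=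
  ∀ (X : Type v) [NormedAddCommGroup X] [Lattice X] [NormedSpace ℝ X] [BanachLattice X]
    (J : ClosedIdeal X) (T : A →L[ℝ] J.Quo), IsLatticeHom T → ∀ ε : ℝ, 0 < ε →
      ∃ S : A →L[ℝ] X, IsLatticeHom S ∧ (∀ a, J.proj (S a) = T a) ∧ ‖S‖ ≤ (1 + ε) * ‖T‖

/-- Semiprojective Banach lattices. Here `J` is the closure of the union of the increasing sequence
of closed ideals `I n` of the separable Banach lattice `B`, and the last condition on `ψ` says that
the image of `ψ a ∈ B / I n` in `B / J` is `φ a`. -/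
def Semiprojective : Prop :=
  ∀ (B : Type v) [NormedAddCommGroup B] [Lattice B] [NormedSpace ℝ B] [BanachLattice B]
    [TopologicalSpace.SeparableSpace B] (I : ℕ → ClosedIdeal B) (J : ClosedIdeal B),
    (∀ n x, x ∈ I n → x ∈ I (n + 1)) → (J : Set B) = closure (⋃ n, (I n : Set B)) →
    ∀ φ : A →L[ℝ] J.Quo, IsLatticeHom φ → ‖φ‖ ≤ 1 →
      ∃ n, ∀ ε : ℝ, 0 < ε → ∃ ψ : A →L[ℝ] (I n).Quo, IsLatticeHom ψ ∧ ‖ψ‖ ≤ 1 + ε ∧
        ∀ a b, (I n).proj b = ψ a → J.proj b = φ a

variable {A} in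
/-- `φ : A → B / I` is `1⁺`-liftable. -/
def OnePlusLiftable {B : Type v} [NormedAddCommGroup B] [Lattice B] [NormedSpace ℝ B]
    [BanachLattice B] (I : ClosedIdeal B) (φ : A →L[ℝ] I.Quo) : Prop :=
  ∀ ε : ℝ, 0 < ε → ∃ ψ : A →L[ℝ] B, IsLatticeHom ψ ∧ (∀ a, I.proj (ψ a) = φ a) ∧ ‖ψ‖ ≤ 1 + ε

/-- The set `Hom₁(A, C)` of the lattice homomorphisms of norm at most `1`. -/
def HomOne (C : Type v) [NormedAddCommGroup C] [Lattice C] [NormedSpace ℝ C] : Type (max u v) :=
  {φ : A →L[ℝ] C // IsLatticeHom φ ∧ ‖φ‖ ≤ 1}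

/-- The point-norm topology on `Hom₁(A, C)`: the topology induced from the product topology
on the set of all functions `A → C`. -/
instance (C : Type v) [NormedAddCommGroup C] [Lattice C] [NormedSpace ℝ C] :
    TopologicalSpace (HomOne A C) :=
  TopologicalSpace.induced (fun (φ : HomOne A C) (a : A) => φ.1 a) inferInstance

/-- `ℓ`-open Banach lattices: the `1⁺`-liftable homomorphisms form an open subset of
`Hom₁(A, B / I)`, for all separable `B` and all closed ideals `I` of `B`. -/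
def LOpen : Prop :=
  ∀ (B : Type v) [NormedAddCommGroup B] [Lattice B] [NormedSpace ℝ B] [BanachLattice B]
    [TopologicalSpace.SeparableSpace B] (I : ClosedIdeal B),
    IsOpen {φ : HomOne A I.Quo | OnePlusLiftable I φ.1}

end

end Pool.Agent.X171.SP
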