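import Pool.Agent.X171.SP.Quo

/-!
# Closed sublattices of Banach lattices; approximate units of closed ideals
-/

open Filter
open scoped Topology

namespace Pool.Agent.X171.SP

open Pool.Agent.X171.BL

universe u v w

section

variable {B : Type v} [NormedAddCommGroup B] [Lattice B] [NormedSpace ℝ B]

variable (B) in
/-- Closed sublattices of a Banach lattice. -/
structure ClosedSublattice extends Submodule ℝ B where
  sup_mem' : ∀ x y : B, x ∈ carrier → y ∈ carrier → x ⊔ y ∈ carrier
  closed' : IsClosed carrier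

namespace ClosedSublattice

variable (S : ClosedSublattice B)

/-- a closed sublattice, as a type -/
def Ty : Type v := S.toSubmodule

noncomputable instance : NormedAddCommGroup S.Ty :=
  inferInstanceAs (NormedAddCommGroup S.toSubmodule)

noncomputable instance : NormedSpace ℝ S.Ty :=
  inferInstanceAs (NormedSpace ℝ S.toSubmodule)

variable [BanachLattice B]

lemma inf_mem {x y : B} (hx : x ∈ S.toSubmodule) (hy : y ∈ S.toSubmodule) :
    x ⊓ y ∈ S.toSubmodule := by
  have h : x ⊓ y = -(-x ⊔ -y) := by rw [neg_sup, neg_neg, neg_neg]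
  rw [h]
  exact S.toSubmodule.neg_mem (S.sup_mem' _ _ (S.toSubmodule.neg_mem hx)
    (S.toSubmodule.neg_mem hy))

noncomputable instance : Lattice S.Ty :=
  Subtype.lattice (P := fun x : B => x ∈ S.toSubmodule) (fun _ _ h h' => S.sup_mem' _ _ h h')
    (fun _ _ h h' => S.inf_mem h h')

/-- the inclusion -/
noncomputable def incl : S.Ty →L[ℝ] B := S.toSubmodule.subtypeL

omit [BanachLattice B] in
lemma incl_mk (x : B) (hx : x ∈ S.toSubmodule) : S.incl ⟨x, hx⟩ = x := rfl

omit [BanachLattice B] in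
lemma norm_incl (x : S.Ty) : ‖S.incl x‖ = ‖x‖ := rfl

omit [BanachLattice B] in
lemma incl_mem (x : S.Ty) : S.incl x ∈ S.toSubmodule := x.2

omit [BanachLattice B] in
lemma incl_inj {x y : S.Ty} (h : S.incl x = S.incl y) : x = y := Subtype.ext h

lemma incl_hom : IsLatticeHom S.incl := ⟨fun _ _ => rfl, fun _ _ => rfl⟩

lemma incl_abs (x : S.Ty) : S.incl |x| = |S.incl x| := S.incl_hom.abs x

lemma incl_le {x y : S.Ty} : x ≤ y ↔ S.incl x ≤ S.incl y := Iff.rfl

noncomputable instance : BanachLattice S.Ty where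
  ordered := by
    refine { add_le_add_left := fun p q h r => ?_ }
    rw [incl_le, map_add, map_add]
    have := incl_le S |>.1 h
    gcongr
  smul := by
    refine ⟨fun r hr p q h => ?_⟩
    change S.incl (r • p) ≤ S.incl (r • q)
    rw [map_smul, map_smul]
    exact smul_le_smul_of_nonneg_left h hr
  solid := by
    refine ⟨fun p q h => ?_⟩
    rw [← S.norm_incl, ← S.norm_incl]
    apply norm_le_of_abs_le
    rw [← incl_abs, ← incl_abs]
    exact h
  complete := by
    have h : IsComplete (S.toSubmodule : Set B) := S.closed'.isComplete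
    exact h.completeSpace_coe

end ClosedSublattice

end

/-! ### Separable Banach lattices -/

section

variable {X : Type v} [NormedAddCommGroup X] [Lattice X] [NormedSpace ℝ X] [BanachLattice X]

/-- a common bound for a sequence -/
lemma exists_bound (x : ℕ → X) : ∃ e : X, 0 ≤ e ∧ ∃ r : ℕ → ℝ, ∀ n, 0 < r n ∧ r n • |x n| ≤ e := by
  set r : ℕ → ℝ := fun n => (1 / 2) ^ n / (1 + ‖x n‖) with hr
  have hr0 : ∀ n, 0 < r n := fun n => by
    have := norm_nonneg (x n)
    positivity
  set u : ℕ → X := fun n => r n • |x n| with hu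
  have hu0 : ∀ n, 0 ≤ u n := fun n => smul_nonneg (hr0 n).le (abs_nonneg _)
  have hus : Summable u := by
    refine Summable.of_norm_bounded summable_geometric_two fun n => ?_
    have h1 := norm_nonneg (x n)
    rw [hu]
    simp only
    rw [norm_smul, norm_abs_eq_norm, Real.norm_eq_abs, abs_of_pos (hr0 n), hr]
    simp only
    rw [div_mul_eq_mul_div, div_le_iff₀ (by positivity)]
    have h2 : (0 : ℝ) ≤ (1 / 2) ^ n := by positivity
    nlinarith
  have hue : ∀ n, u n ≤ ∑' n, u n := fun n => hus.le_tsum n fun j _ => hu0 j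
  exact ⟨∑' n, u n, (hu0 0).trans (hue 0), r, fun n => ⟨hr0 n, hue n⟩⟩

lemma continuous_abs' : Continuous fun y : X => |y| := by
  have : Continuous fun y : X => y ⊔ -y := continuous_id.sup continuous_neg
  exact this

/-- If `x` is dense and the range of a linear map contains multiples of the `|x n|` then the
range is dense. -/
lemma denseRange_of_abs {x : ℕ → X} (hx : DenseRange x) {r : ℕ → ℝ} (hr : ∀ n, 0 < r n)
    {ι : C(K ℕ, ℝ) →L[ℝ] X} (h : ∀ n, ι (pr n) = r n • |x n|) : DenseRange ι := by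
  set S : Submodule ℝ X := (LinearMap.range (ι : C(K ℕ, ℝ) →ₗ[ℝ] X)).topologicalClosure with hS
  have hSc : IsClosed (S : Set X) := Submodule.isClosed_topologicalClosure _
  have hmem : ∀ f, ι f ∈ S := fun f =>
    Submodule.le_topologicalClosure _ (LinearMap.mem_range.2 ⟨f, rfl⟩)
  have hax : ∀ n, |x n| ∈ S := by
    intro n
    have h3 := S.smul_mem (r n)⁻¹ (hmem (pr n))
    rw [h] at h3
    rwa [smul_smul, inv_mul_cancel₀ (hr n).ne', one_smul] at h3
  have habs : ∀ y : X, |y| ∈ S := by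
    intro y
    have hcl : IsClosed {y : X | |y| ∈ S} := hSc.preimage continuous_abs'
    have hsub : closure (Set.range x) ⊆ {y : X | |y| ∈ S} := by
      apply closure_minimal _ hcl
      rintro _ ⟨n, rfl⟩
      exact hax n
    exact hsub (hx y)
  have hall : ∀ y : X, y ∈ S := by
    intro y
    have h3 : y⁺ ∈ S := by
      have := habs y⁺
      rwa [abs_of_nonneg (posPart_nonneg y)] at this
    have h4 : y⁻ ∈ S := by
      have := habs y⁻
      rwa [abs_of_nonneg (negPart_nonneg y)] at this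
    have := S.sub_mem h3 h4
    rwa [posPart_sub_negPart] at this
  intro y
  have h5 : y ∈ (S : Set X) := hall y
  rw [hS, Submodule.topologicalClosure_coe] at h5
  exact h5

/-- **Multiplication with `1 - v`.** -/
theorem exists_mult {Γ : Type} {S : C(K Γ, ℝ) →L[ℝ] X} (hS : IsLatticeHom S) (hd : DenseRange S)
    {v : X} (hv0 : 0 ≤ v) (hv1 : v ≤ S 1) :
    ∃ M : X →L[ℝ] X, IsLatticeHom M ∧ (∀ x, ‖M x‖ ≤ ‖x‖) ∧ M (S 1) = S 1 - v ∧
      (∀ x, 0 ≤ x → M x ≤ x) ∧ ∀ J : ClosedIdeal X, v ∈ J → ∀ x, x - M x ∈ J := by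
  have hone : (0 : C(K Γ, ℝ)) ≤ 1 := fun _ => zero_le_one
  have he0 : 0 ≤ S 1 := hS.nonneg hone
  have hu : ∀ γ, 0 ≤ S (pr γ) ∧ S (pr γ) ≤ S 1 := fun γ => by
    have h0 : (0 : C(K Γ, ℝ)) ≤ pr γ := fun k => (k γ).2.1
    have h1 : (pr γ : C(K Γ, ℝ)) ≤ 1 := fun k => (k γ).2.2
    exact ⟨hS.nonneg h0, hS.mono h1⟩
  obtain ⟨Ψ, hΨ, hΨ1, hΨ2⟩ := exists_hom' (Γ := Option Γ) (e := S 1)
    (u := fun o => o.elim v fun γ => S (pr γ)) (fun o => by
      cases o with
      | none => exact ⟨hv0, hv1⟩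
      | some γ => exact hu γ) he0
  have hcomp : ∀ f, Ψ (pull forget forget_continuous f) = S f := fun f =>
    hom_ext (S := Ψ.comp (pull forget forget_continuous)) (hΨ.comp (pull_hom _ _)) hS
      (by
        change Ψ 1 = S 1
        rw [hΨ1])
      (fun γ => by
        change Ψ (pr (some γ)) = S (pr γ)
        rw [hΨ2]
        rfl) f
  set g : C(K (Option Γ), ℝ) := 1 - pr none with hg
  have hg0 : 0 ≤ g := fun k => sub_nonneg.2 (k none).2.2
  have hg1 : ∀ k, g k ≤ 1 := fun k => by
    have h : (0 : ℝ) ≤ k none := (k none).2.1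
    change 1 - (k none : ℝ) ≤ 1
    linarith
  set L : C(K Γ, ℝ) →L[ℝ] X := Ψ.comp ((mulBy g).comp (pull forget forget_continuous)) with hL
  have hLh : IsLatticeHom L := hΨ.comp ((mulBy_hom g hg0).comp (pull_hom _ _))
  have hLabs : ∀ f, |L f| ≤ |S f| := by
    intro f
    rw [← hLh.abs, ← hS.abs, ← hcomp, hL]
    simp only [ContinuousLinearMap.comp_apply]
    apply hΨ.mono
    intro k
    change g k * |f| (forget k) ≤ |f| (forget k)
    have h1 : (0 : ℝ) ≤ |f| (forget k) := by
      have : (0 : C(K Γ, ℝ)) ≤ |f| := abs_nonneg _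
      exact this (forget k)
    exact mul_le_of_le_one_left h1 (hg1 k)
  have hLn : ∀ f, ‖L f‖ ≤ 1 * ‖S f‖ := fun f => by
    rw [one_mul]
    exact norm_le_of_abs_le (hLabs f)
  set M : X →L[ℝ] X := (L : C(K Γ, ℝ) →ₗ[ℝ] X).extendOfNorm (S : C(K Γ, ℝ) →ₗ[ℝ] X) with hM
  have hMS : ∀ f, M (S f) = L f := fun f => LinearMap.extendOfNorm_eq hd ⟨1, hLn⟩ f
  have hMh : IsLatticeHom M := by
    refine ⟨fun x y => ?_, fun x y => ?_⟩
    · refine hd.induction_on₂ (p := fun x y => M (x ⊔ y) = M x ⊔ M y) ?_ ?_ x y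
      · apply isClosed_eq
        · exact M.continuous.comp (continuous_fst.sup continuous_snd)
        · exact (M.continuous.comp continuous_fst).sup (M.continuous.comp continuous_snd)
      · intro f f'
        rw [← hS.sup, hMS, hMS, hMS, hLh.sup]
    · refine hd.induction_on₂ (p := fun x y => M (x ⊓ y) = M x ⊓ M y) ?_ ?_ x y
      · apply isClosed_eq
        · exact M.continuous.comp (continuous_fst.inf continuous_snd)
        · exact (M.continuous.comp continuous_fst).inf (M.continuous.comp continuous_snd)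
      · intro f f'
        rw [← hS.inf, hMS, hMS, hMS, hLh.inf]
  refine ⟨M, hMh, fun x => ?_, ?_, fun x hx => ?_, fun J hJ x => ?_⟩
  · have := LinearMap.norm_extendOfNorm_apply_le (f := (L : C(K Γ, ℝ) →ₗ[ℝ] X))
      (e := (S : C(K Γ, ℝ) →ₗ[ℝ] X)) hd 1 hLn x
    rwa [one_mul] at this
  · rw [hMS, hL]
    simp only [ContinuousLinearMap.comp_apply]
    have h1 : mulBy g (pull forget forget_continuous (1 : C(K Γ, ℝ))) = g := by
      ext k
      change g k * 1 = g k
      rw [mul_one]
    rw [h1, hg, map_sub, hΨ1, hΨ2]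
    rfl
  · have h1 : ∀ y, |M y| ≤ |y| := by
      intro y
      refine hd.induction_on (p := fun y => |M y| ≤ |y|) y ?_ ?_
      · exact isClosed_le (continuous_abs'.comp M.continuous) continuous_abs'
      · intro f
        rw [hMS]
        exact hLabs f
    have h2 := h1 x
    rw [abs_of_nonneg hx] at h2
    exact (le_abs_self (M x)).trans h2
  · refine hd.induction_on (p := fun y => y - M y ∈ J) x ?_ ?_
    · have : IsClosed (J : Set X) := J.closed'
      exact this.preimage (continuous_id.sub M.continuous)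
    · intro f
      rw [hMS]
      have h1 : S f - L f = Ψ (mulBy (pr none) (pull forget forget_continuous f)) := by
        rw [← hcomp, hL]
        simp only [ContinuousLinearMap.comp_apply]
        rw [← map_sub]
        congr 1
        ext k
        change f (forget k) - (1 - (k none : ℝ)) * f (forget k) = (k none : ℝ) * f (forget k)
        ring
      rw [h1]
      have h2 : |Ψ (mulBy (pr none) (pull forget forget_continuous f))| ≤ |‖f‖ • v| := by
        have h3 : (0 : X) ≤ ‖f‖ • v := smul_nonneg (norm_nonneg _) hv0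
        rw [abs_of_nonneg h3, ← hΨ.abs]
        have h4 : Ψ (‖f‖ • pr none) = ‖f‖ • v := by
          rw [map_smul, hΨ2]
          rfl
        rw [← h4]
        apply hΨ.mono
        intro k
        change |(k none : ℝ) * f (forget k)| ≤ ‖f‖ * (k none : ℝ)
        rw [abs_mul, abs_of_nonneg (k none).2.1, mul_comm]
        exact mul_le_mul_of_nonneg_right (f.norm_coe_le_norm _) (k none).2.1
      exact J.solid' _ _ (J.toSubmodule.smul_mem ‖f‖ hJ) h2

/-- **Approximate units.** If `J` is a closed ideal in a separable Banach lattice `X`, there are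
contractive lattice homomorphisms `M k : X → X` with `x - M k x ∈ J` for all `x` and `M k x → 0`
for `x ∈ J`. -/
theorem exists_approx [TopologicalSpace.SeparableSpace X] (J : ClosedIdeal X) :
    ∃ M : ℕ → X →L[ℝ] X, (∀ k, IsLatticeHom (M k)) ∧ (∀ k x, ‖M k x‖ ≤ ‖x‖) ∧
      (∀ k x, x - M k x ∈ J) ∧ ∀ x ∈ J, Tendsto (fun k => M k x) atTop (𝓝 0) := by
  obtain ⟨x, hx⟩ := TopologicalSpace.exists_dense_seq X
  have : SecondCountableTopology X := UniformSpace.secondCountable_of_separable X
  obtain ⟨j, hj⟩ := TopologicalSpace.exists_dense_seq J.toSubmodule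
  obtain ⟨e₁, he₁, r, hr⟩ := exists_bound x
  obtain ⟨e₂, he₂, s, hs⟩ := exists_bound (fun n => (j n : X))
  have he : 0 ≤ e₁ + e₂ := add_nonneg he₁ he₂
  obtain ⟨S, hS, hS1, hS2⟩ := exists_hom' (Γ := ℕ) (e := e₁ + e₂) (u := fun n => r n • |x n|)
    (fun n => ⟨smul_nonneg (hr n).1.le (abs_nonneg _),
      (hr n).2.trans (le_add_of_nonneg_right he₂)⟩) he
  have hd : DenseRange S := denseRange_of_abs hx (fun n => (hr n).1) hS2
  set e := e₁ + e₂ with hedef
  set δ : ℕ → ℝ := fun k => 1 / ((k : ℝ) + 1) with hδ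
  have hδ0 : ∀ k, 0 < δ k := fun k => by positivity
  have hδ1 : ∀ k, δ k ≤ 1 := fun k => by
    rw [hδ]
    simp only
    rw [div_le_one (by positivity)]
    have : (0 : ℝ) ≤ k := by positivity
    linarith
  set w : ℕ → X := fun k => ∑ i ∈ Finset.range k, |(j i : X)| with hw
  have hw0 : ∀ k, 0 ≤ w k := fun k => Finset.sum_nonneg fun i _ => abs_nonneg _
  have hwJ : ∀ k, w k ∈ J.toSubmodule := fun k =>
    J.toSubmodule.sum_mem fun i _ => J.solid' _ _ (j i).2 (by rw [abs_abs])
  set v : ℕ → X := fun k => (δ k)⁻¹ • (w k ⊓ δ k • e) with hv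
  have hv0 : ∀ k, 0 ≤ v k := fun k =>
    smul_nonneg (inv_pos.2 (hδ0 k)).le (le_inf (hw0 k) (smul_nonneg (hδ0 k).le he))
  have hve : ∀ k, v k ≤ S 1 := fun k => by
    rw [hS1]
    have h1 := smul_le_smul_of_nonneg_left (inf_le_right : w k ⊓ δ k • e ≤ δ k • e)
      (inv_pos.2 (hδ0 k)).le
    rwa [smul_smul, inv_mul_cancel₀ (hδ0 k).ne', one_smul] at h1
  have hvJ : ∀ k, v k ∈ J := fun k => by
    refine J.toSubmodule.smul_mem _ (J.solid' _ _ (hwJ k) ?_)
    rw [abs_of_nonneg (hw0 k), abs_of_nonneg (le_inf (hw0 k) (smul_nonneg (hδ0 k).le he))]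
    exact inf_le_left
  choose M hM1 hM2 hM3 hM4 hM5 using fun k => exists_mult hS hd (hv0 k) (hve k)
  refine ⟨M, hM1, hM2, fun k => hM5 k J (hvJ k), fun y hy => ?_⟩
  have hjb : ∀ i k, i < k → ‖M k (j i)‖ ≤ δ k * ‖e‖ := by
    intro i k hik
    rw [← norm_abs_eq_norm, ← (hM1 k).abs]
    have h1 : M k |(j i : X)| ≤ 0 + δ k • e := by
      refine key (w := w k) he (hδ0 k) (hδ1 k) (M := max 1 (s i)⁻¹) (le_max_left _ _)
        (hM4 k _ (abs_nonneg _)) ?_ ?_ le_rfl
      · have h2 : |(j i : X)| ≤ (max 1 (s i)⁻¹) • e := by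
          have h3 : |(j i : X)| ≤ (s i)⁻¹ • e := by
            have h4 := smul_le_smul_of_nonneg_left
              ((hs i).2.trans (le_add_of_nonneg_left he₁ : e₂ ≤ e)) (inv_pos.2 (hs i).1).le
            rwa [smul_smul, inv_mul_cancel₀ (hs i).1.ne', one_smul] at h4
          exact h3.trans (smul_le_smul_of_nonneg_right (le_max_right _ _) he)
        have h3 := (hM1 k).mono h2
        rw [map_smul] at h3
        have h4 := hM3 k
        rw [hS1] at h4
        rw [h4] at h3
        exact h3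
      · rw [zero_add]
        exact Finset.single_le_sum (f := fun i => |(j i : X)|) (fun i _ => abs_nonneg _)
          (Finset.mem_range.2 hik)
    rw [zero_add] at h1
    refine (norm_le_of_le ((hM1 k).nonneg (abs_nonneg _)) h1).trans ?_
    rw [norm_smul, Real.norm_eq_abs, abs_of_pos (hδ0 k)]
  rw [Metric.tendsto_atTop]
  intro ε hε
  obtain ⟨i, hi⟩ := hj.exists_dist_lt ⟨y, hy⟩ (half_pos hε)
  have hi' : ‖y - j i‖ < ε / 2 := by
    rw [← dist_eq_norm]
    exact hi
  obtain ⟨N, hN⟩ := exists_nat_one_div_lt (show (0 : ℝ) < ε / 2 / (‖e‖ + 1) by positivity)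
  refine ⟨max N (i + 1), fun k hk => ?_⟩
  rw [dist_zero_right]
  have h1 : M k y = M k (y - j i) + M k (j i) := by rw [← map_add, sub_add_cancel]
  rw [h1]
  have h2 := hjb i k (by omega)
  have h3 : δ k * ‖e‖ ≤ ε / 2 := by
    have h4 : δ k ≤ 1 / ((N : ℝ) + 1) := by
      have h5 : N ≤ k := by omega
      have h6 : (N : ℝ) ≤ k := by exact_mod_cast h5
      rw [hδ]
      simp only
      gcongr
    calc δ k * ‖e‖ ≤ (ε / 2 / (‖e‖ + 1)) * (‖e‖ + 1) := by
          gcongr
          · exact h4.trans hN.le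
          · linarith
      _ = ε / 2 := by field_simp
  calc ‖M k (y - j i) + M k (j i)‖ ≤ ‖M k (y - j i)‖ + ‖M k (j i)‖ := norm_add_le _ _
    _ ≤ ‖y - j i‖ + δ k * ‖e‖ := add_le_add (hM2 k _) h2
    _ < ε / 2 + ε / 2 := by linarith
    _ = ε := by ring

end

end Pool.Agent.X171.SP
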