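import Pool.Agent.X171.SP.SubL
import Pool.Agent.X171.SP.Defs

/-!
# Semiprojective Banach lattices: all contractive lattice homomorphisms into quotients of separable
Banach lattices are `1⁺`-liftable
-/

open Filter
open scoped Topology BoundedContinuousFunction

namespace Pool.Agent.X171.SP

open Pool.Agent.X171.BL

universe u v w

section

variable {X : Type v} [NormedAddCommGroup X] [Lattice X] [NormedSpace ℝ X] [BanachLattice X]

noncomputable instance : BanachLattice (ℕ →ᵇ X) where
  ordered := inferInstance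
  smul := ⟨fun _ hr _ _ h k => smul_le_smul_of_nonneg_left (h k) hr⟩
  solid := inferInstance
  complete := inferInstance

lemma bcf_sup (b c : ℕ →ᵇ X) (k : ℕ) : (b ⊔ c) k = b k ⊔ c k := rfl
lemma bcf_inf (b c : ℕ →ᵇ X) (k : ℕ) : (b ⊓ c) k = b k ⊓ c k := rfl
lemma bcf_abs (b : ℕ →ᵇ X) (k : ℕ) : |b| k = |b k| := rfl

omit [Lattice X] [NormedSpace ℝ X] [BanachLattice X] in
lemma bcf_norm_le {b : ℕ →ᵇ X} {r : ℝ} (hr : 0 ≤ r) (h : ∀ k, ‖b k‖ ≤ r) : ‖b‖ ≤ r :=
  (BoundedContinuousFunction.norm_le hr).2 h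

variable {J : ClosedIdeal X} {M : ℕ → X →L[ℝ] X} (hM : ∀ k, IsLatticeHom (M k))
  (hM1 : ∀ k x, ‖M k x‖ ≤ ‖x‖) (hM2 : ∀ k x, x - M k x ∈ J)
  (hM3 : ∀ x ∈ J, Tendsto (fun k => M k x) atTop (𝓝 0))

/-- the sequence `(M k x)` -/
noncomputable def seqv (x : X) : ℕ →ᵇ X :=
  BoundedContinuousFunction.ofNormedAddCommGroup (fun k => M k x) (by fun_prop) ‖x‖
    (fun k => hM1 k x)

omit [Lattice X] [BanachLattice X] in
lemma seqv_apply (x : X) (k : ℕ) : seqv hM1 x k = M k x := rfl

/-- the finitely supported truncations -/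
noncomputable def trunc (n : ℕ) (b : ℕ →ᵇ X) : ℕ →ᵇ X :=
  BoundedContinuousFunction.ofNormedAddCommGroup (fun k => if k < n then b k else 0)
    (by fun_prop) ‖b‖ (fun k => by
      split_ifs
      · exact b.norm_coe_le_norm k
      · rw [norm_zero]; exact norm_nonneg _)

omit [Lattice X] [NormedSpace ℝ X] [BanachLattice X] in
lemma trunc_apply (n : ℕ) (b : ℕ →ᵇ X) (k : ℕ) :
    trunc n b k = if k < n then b k else 0 := rfl

/-- the witness condition -/
def Wit (J : ClosedIdeal X) (M : ℕ → X →L[ℝ] X) (b : ℕ →ᵇ X) (x : X) : Prop :=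
  (∀ k, b k - M k x ∈ J) ∧ Tendsto (fun k => b k - M k x) atTop (𝓝 0)

omit [BanachLattice X] in
include hM2 in
lemma proj_M (k : ℕ) (x : X) : J.proj (M k x) = J.proj x :=
  ((J.mk_eq_iff).2 (hM2 k x)).symm

omit [BanachLattice X] in
include hM2 in
lemma Wit.proj {b : ℕ →ᵇ X} {x : X} (h : Wit J M b x) (k : ℕ) : J.proj (b k) = J.proj x :=
  ((J.mk_eq_iff).2 (h.1 k)).trans (proj_M hM2 k x)

/-- the lattice `B` -/
noncomputable def Bl : ClosedSublattice (ℕ →ᵇ X) where
  carrier := {b | ∃ x, Wit J M b x}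
  zero_mem' := ⟨0, fun k => by
    rw [map_zero, sub_zero]
    exact J.toSubmodule.zero_mem, by simp⟩
  add_mem' := by
    rintro b c ⟨x, h1, h2⟩ ⟨y, h3, h4⟩
    have e : ∀ k, (b + c) k - M k (x + y) = (b k - M k x) + (c k - M k y) := fun k => by
      rw [BoundedContinuousFunction.add_apply, map_add]
      abel
    refine ⟨x + y, fun k => ?_, ?_⟩
    · rw [e]
      exact J.toSubmodule.add_mem (h1 k) (h3 k)
    · simp only [e]
      simpa using h2.add h4
  smul_mem' := by
    rintro r b ⟨x, h1, h2⟩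
    have e : ∀ k, (r • b) k - M k (r • x) = r • (b k - M k x) := fun k => by
      rw [BoundedContinuousFunction.smul_apply, map_smul, smul_sub]
    refine ⟨r • x, fun k => ?_, ?_⟩
    · rw [e]
      exact J.toSubmodule.smul_mem r (h1 k)
    · simp only [e]
      simpa using h2.const_smul r
  sup_mem' := by
    rintro b c ⟨x, h1, h2⟩ ⟨y, h3, h4⟩
    have e : ∀ k, |(b ⊔ c) k - M k (x ⊔ y)| ≤ |b k - M k x| + |c k - M k y| := fun k => by
      rw [bcf_sup, (hM k).sup]
      have h5 : b k ⊔ c k - M k x ⊔ M k y =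
          (b k ⊔ c k - M k x ⊔ c k) + (c k ⊔ M k x - M k y ⊔ M k x) := by
        rw [sup_comm (c k) (M k x), sup_comm (M k y) (M k x)]
        abel
      rw [h5]
      refine (abs_add_le _ _).trans (add_le_add ?_ ?_)
      · exact abs_sup_sub_sup_le_abs _ _ _
      · exact abs_sup_sub_sup_le_abs _ _ _
    have e0 : ∀ k, |(b k - M k x : X)| + |c k - M k y| = |(|b k - M k x| + |c k - M k y|)| :=
      fun k => (abs_of_nonneg (add_nonneg (abs_nonneg _) (abs_nonneg _))).symm
    refine ⟨x ⊔ y, fun k => ?_, ?_⟩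
    · refine J.solid' (|b k - M k x| + |c k - M k y|) _ ?_ (by rw [← e0]; exact e k)
      exact J.toSubmodule.add_mem (J.solid' _ _ (h1 k) (by rw [abs_abs]))
        (J.solid' _ _ (h3 k) (by rw [abs_abs]))
    · rw [tendsto_zero_iff_norm_tendsto_zero] at h2 h4 ⊢
      refine squeeze_zero (fun _ => norm_nonneg _) (fun k => ?_) (by simpa using h2.add h4)
      calc ‖(b ⊔ c) k - M k (x ⊔ y)‖ ≤ ‖|b k - M k x| + |c k - M k y|‖ :=
            norm_le_of_abs_le (by rw [← e0]; exact e k)
        _ ≤ ‖|b k - M k x|‖ + ‖|c k - M k y|‖ := norm_add_le _ _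
        _ = ‖b k - M k x‖ + ‖c k - M k y‖ := by rw [norm_abs_eq_norm, norm_abs_eq_norm]
  closed' := by
    refine isClosed_of_closure_subset fun b hb => ?_
    obtain ⟨x, hx⟩ := J.mk_surj (J.proj (b 0))
    have hb0 : ∀ k, J.proj (b k) = J.proj (b 0) := by
      intro k
      have hcl : IsClosed {b : ℕ →ᵇ X | J.proj (b k) = J.proj (b 0)} := by
        apply isClosed_eq
        · exact J.proj.continuous.comp (continuous_eval_const k)
        · exact J.proj.continuous.comp (continuous_eval_const 0)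
      refine closure_minimal ?_ hcl hb
      rintro c ⟨y, hy⟩
      exact (hy.proj hM2 k).trans (hy.proj hM2 0).symm
    refine ⟨x, fun k => ?_, ?_⟩
    · rw [← J.mk_eq_iff, hb0, proj_M hM2, hx]
    · rw [Metric.tendsto_atTop]
      intro ε hε
      obtain ⟨c, ⟨y, hy⟩, hbc⟩ := Metric.mem_closure_iff.1 hb (ε / 4) (by positivity)
      rw [dist_eq_norm] at hbc
      have h1 : ‖J.proj (y - x)‖ < ε / 4 := by
        rw [map_sub, hx, ← hy.proj hM2 0, ← map_sub]
        refine (J.norm_mk_le _).trans_lt (lt_of_le_of_lt ?_ hbc)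
        rw [norm_sub_rev]
        exact (b - c).norm_coe_le_norm 0
      obtain ⟨z, hz, hz'⟩ := J.exists_lift _ _ h1
      rw [J.mk_eq_iff] at hz
      have h2 := (hy.2).norm
      have h3 := (hM3 _ hz).norm
      rw [norm_zero] at h2 h3
      have h4 := (h2.eventually (gt_mem_nhds (show (0 : ℝ) < ε / 4 by positivity))).and
        (h3.eventually (gt_mem_nhds (show (0 : ℝ) < ε / 4 by positivity)))
      obtain ⟨N, hN⟩ := eventually_atTop.1 h4
      refine ⟨N, fun k hk => ?_⟩
      obtain ⟨h5, h6⟩ := hN k hk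
      rw [dist_zero_right]
      have h7 : b k - M k x = (b - c) k + (c k - M k y) + (M k z - M k (z - (y - x))) := by
        rw [BoundedContinuousFunction.sub_apply, map_sub, map_sub]
        abel
      rw [h7]
      have h8 := (b - c).norm_coe_le_norm k
      have h9 := hM1 k z
      calc ‖(b - c) k + (c k - M k y) + (M k z - M k (z - (y - x)))‖
          ≤ ‖(b - c) k‖ + ‖c k - M k y‖ + (‖M k z‖ + ‖M k (z - (y - x))‖) :=
            (norm_add_le _ _).trans (add_le_add (norm_add_le _ _) (norm_sub_le _ _))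
        _ < ε := by linarith


/-! ### Separability -/

omit [Lattice X] [NormedSpace ℝ X] [BanachLattice X] in
/-- the sequences supported in `{0, ..., n - 1}` -/
lemma isSeparable_fin [TopologicalSpace.SeparableSpace X] (n : ℕ) :
    TopologicalSpace.IsSeparable {b : ℕ →ᵇ X | ∀ k, n ≤ k → b k = 0} := by
  have hF : ∀ g : Fin n → X, ∀ k : ℕ, ‖(if h : k < n then g ⟨k, h⟩ else 0 : X)‖ ≤ ‖g‖ := by
    intro g k
    split_ifs with h
    · exact norm_le_pi_norm g _
    · rw [norm_zero]; exact norm_nonneg _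
  let F : (Fin n → X) → (ℕ →ᵇ X) := fun g =>
    BoundedContinuousFunction.ofNormedAddCommGroup
      (fun k => if h : k < n then g ⟨k, h⟩ else 0) (by fun_prop) ‖g‖ (hF g)
  have hFc : Continuous F := by
    apply LipschitzWith.continuous (K := 1)
    apply LipschitzWith.of_dist_le_mul
    intro g g'
    rw [NNReal.coe_one, one_mul, dist_eq_norm, dist_eq_norm]
    refine (BoundedContinuousFunction.norm_le (norm_nonneg _)).2 fun k => ?_
    have h1 : (F g - F g') k = if h : k < n then (g - g') ⟨k, h⟩ else 0 := by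
      change (if h : k < n then g ⟨k, h⟩ else 0) - (if h : k < n then g' ⟨k, h⟩ else 0) = _
      split_ifs with h
      · rfl
      · rw [sub_zero]
    rw [h1]
    exact hF (g - g') k
  refine (TopologicalSpace.isSeparable_range hFc).mono ?_
  intro b hb
  refine ⟨fun i => b i, ?_⟩
  ext k
  change (if h : k < n then b k else 0) = b k
  split_ifs with h
  · rfl
  · exact (hb k (not_lt.1 h)).symm

omit [Lattice X] [NormedSpace ℝ X] [BanachLattice X] in
lemma norm_sub_trunc {b : ℕ →ᵇ X} {n : ℕ} {r : ℝ} (hr : 0 ≤ r) (h : ∀ k, n ≤ k → ‖b k‖ ≤ r) :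
    ‖b - trunc n b‖ ≤ r := by
  refine bcf_norm_le hr fun k => ?_
  rw [BoundedContinuousFunction.sub_apply, trunc_apply]
  split_ifs with hk
  · rw [sub_self, norm_zero]
    exact hr
  · rw [sub_zero]
    exact h k (not_lt.1 hk)

omit [Lattice X] [BanachLattice X] in
lemma isSeparable_c0 [TopologicalSpace.SeparableSpace X] :
    TopologicalSpace.IsSeparable {b : ℕ →ᵇ X | Tendsto (fun k => b k) atTop (𝓝 0)} := by
  refine ((TopologicalSpace.IsSeparable.iUnion
    (fun n => isSeparable_fin (X := X) n)).closure).mono ?_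
  intro b hb
  rw [Metric.mem_closure_iff]
  intro ε hε
  obtain ⟨N, hN⟩ := Metric.tendsto_atTop.1 hb (ε / 2) (by positivity)
  refine ⟨trunc N b, Set.mem_iUnion.2 ⟨N, fun k hk => ?_⟩, ?_⟩
  · rw [trunc_apply, if_neg (not_lt.2 hk)]
  · rw [dist_eq_norm]
    refine (norm_sub_trunc (by positivity : (0 : ℝ) ≤ ε / 2) fun k hk => ?_).trans_lt
      (by linarith)
    have := hN k hk
    rw [dist_zero_right] at this
    exact this.le

omit [Lattice X] [BanachLattice X] in
lemma seqv_continuous : Continuous (seqv hM1) := by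
  apply LipschitzWith.continuous (K := 1)
  apply LipschitzWith.of_dist_le_mul
  intro x y
  rw [NNReal.coe_one, one_mul, dist_eq_norm, dist_eq_norm]
  refine bcf_norm_le (norm_nonneg _) fun k => ?_
  rw [BoundedContinuousFunction.sub_apply, seqv_apply, seqv_apply, ← map_sub]
  exact hM1 k _

include hM1 in
lemma isSeparable_wit [TopologicalSpace.SeparableSpace X] :
    TopologicalSpace.IsSeparable {b : ℕ →ᵇ X | ∃ x, Wit J M b x} := by
  have h1 := (TopologicalSpace.isSeparable_range (seqv_continuous hM1)).prod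
    (isSeparable_c0 (X := X))
  have h2 := h1.image (f := fun p : (ℕ →ᵇ X) × (ℕ →ᵇ X) => p.1 + p.2) continuous_add
  refine h2.mono ?_
  rintro b ⟨x, hx1, hx2⟩
  refine ⟨(seqv hM1 x, b - seqv hM1 x), ⟨⟨x, rfl⟩, ?_⟩, by simp⟩
  change Tendsto (fun k => (b - seqv hM1 x) k) atTop (𝓝 0)
  simpa [seqv_apply] using hx2

/-! ### The ideals -/

/-- the ideal of the sequences in `J` -/
noncomputable def JB (L : ClosedSublattice (ℕ →ᵇ X)) (J : ClosedIdeal X) : ClosedIdeal L.Ty where
  carrier := {b | ∀ k, L.incl b k ∈ J}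
  zero_mem' := fun k => J.toSubmodule.zero_mem
  add_mem' := fun {b c} hb hc k => J.toSubmodule.add_mem (hb k) (hc k)
  smul_mem' := fun r b hb k => J.toSubmodule.smul_mem r (hb k)
  solid' := fun b c hb hbc k => by
    have h1 : |L.incl c| ≤ |L.incl b| := by
      rw [← L.incl_abs, ← L.incl_abs]
      exact hbc
    exact J.solid' _ _ (hb k) (h1 k)
  closed' := by
    have h1 : {b : L.Ty | ∀ k, L.incl b k ∈ J} = ⋂ k, {b : L.Ty | L.incl b k ∈ J} := by
      ext b; simp
    change IsClosed {b : L.Ty | ∀ k, L.incl b k ∈ J}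
    rw [h1]
    refine isClosed_iInter fun k => ?_
    have h2 : IsClosed (J : Set X) := J.closed'
    exact h2.preimage ((continuous_eval_const k).comp L.incl.continuous)

/-- the ideal of the sequences in `J` which vanish from `n` on -/
noncomputable def IB (L : ClosedSublattice (ℕ →ᵇ X)) (J : ClosedIdeal X) (n : ℕ) :
    ClosedIdeal L.Ty where
  carrier := {b | (∀ k, L.incl b k ∈ J) ∧ ∀ k, n ≤ k → L.incl b k = 0}
  zero_mem' := ⟨fun k => J.toSubmodule.zero_mem, fun k _ => rfl⟩
  add_mem' := fun {b c} hb hc => ⟨fun k => J.toSubmodule.add_mem (hb.1 k) (hc.1 k),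
    fun k hk => by
      rw [map_add, BoundedContinuousFunction.add_apply, hb.2 k hk, hc.2 k hk, add_zero]⟩
  smul_mem' := fun r b hb => ⟨fun k => J.toSubmodule.smul_mem r (hb.1 k),
    fun k hk => by
      rw [map_smul, BoundedContinuousFunction.smul_apply, hb.2 k hk, smul_zero]⟩
  solid' := fun b c hb hbc => by
    have h1 : |L.incl c| ≤ |L.incl b| := by
      rw [← L.incl_abs, ← L.incl_abs]
      exact hbc
    refine ⟨fun k => J.solid' _ _ (hb.1 k) (h1 k), fun k hk => ?_⟩
    have h2 : |L.incl c k| ≤ |L.incl b k| := h1 k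
    rw [hb.2 k hk, abs_zero] at h2
    have h3 := norm_le_of_abs_le (x := L.incl c k) (y := 0) (by rw [abs_zero]; exact h2)
    rw [norm_zero] at h3
    exact norm_le_zero_iff.1 h3
  closed' := by
    have h1 : {b : L.Ty | (∀ k, L.incl b k ∈ J) ∧ ∀ k, n ≤ k → L.incl b k = 0} =
        (⋂ k, {b : L.Ty | L.incl b k ∈ J}) ∩ ⋂ k, ⋂ (_ : n ≤ k), {b : L.Ty | L.incl b k = 0} := by
      ext b; simp
    change IsClosed {b : L.Ty | (∀ k, L.incl b k ∈ J) ∧ ∀ k, n ≤ k → L.incl b k = 0}
    rw [h1]
    refine (isClosed_iInter fun k => ?_).inter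
      (isClosed_iInter fun k => isClosed_iInter fun _ => ?_)
    · have h2 : IsClosed (J : Set X) := J.closed'
      exact h2.preimage ((continuous_eval_const k).comp L.incl.continuous)
    · exact isClosed_eq ((continuous_eval_const k).comp L.incl.continuous) continuous_const

end

end Pool.Agent.X171.SP
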