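import Pool.Agent.X171.BL.Lift

/-!
# Quotients of Banach lattices by closed ideals
-/

open Filter
open scoped Topology

namespace Pool.Agent.X171.SP

open Pool.Agent.X171.BL

universe u v w

/-! ### Quotients -/

section

variable {B : Type v} [NormedAddCommGroup B] [Lattice B] [NormedSpace ℝ B]

variable (B) in
/-- Closed ideals of a Banach lattice. -/
structure ClosedIdeal extends Submodule ℝ B where
  solid' : ∀ x y : B, x ∈ carrier → |y| ≤ |x| → y ∈ carrier
  closed' : IsClosed carrier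

namespace ClosedIdeal

instance : SetLike (ClosedIdeal B) B where
  coe I := I.carrier
  coe_injective := by
    intro I J h
    cases I; cases J
    congr
    exact SetLike.coe_injective h

variable (I : ClosedIdeal B)

lemma mem_toSubmodule {x : B} : x ∈ I.toSubmodule ↔ x ∈ I := Iff.rfl

/-- The quotient `B / I`, as a vector space with the quotient norm. -/
def Quo : Type v := B ⧸ I.toSubmodule

instance : IsClosed (I.toSubmodule : Set B) := I.closed'

noncomputable instance : NormedAddCommGroup I.Quo :=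
  inferInstanceAs (NormedAddCommGroup (B ⧸ I.toSubmodule))

noncomputable instance : NormedSpace ℝ I.Quo :=
  inferInstanceAs (NormedSpace ℝ (B ⧸ I.toSubmodule))

/-- the quotient map `B → B / I` -/
noncomputable def proj : B →L[ℝ] I.Quo :=
  LinearMap.mkContinuous
    { toFun := fun x => (Submodule.Quotient.mk x : B ⧸ I.toSubmodule)
      map_add' := fun _ _ => rfl
      map_smul' := fun _ _ => rfl } 1 fun x => by
        rw [one_mul]
        exact Submodule.Quotient.norm_mk_le I.toSubmodule x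

lemma mk_eq_iff {x y : B} : I.proj x = I.proj y ↔ x - y ∈ I :=
  Submodule.Quotient.eq I.toSubmodule

lemma mk_eq_zero {x : B} : I.proj x = 0 ↔ x ∈ I := by
  rw [← map_zero I.proj, mk_eq_iff, sub_zero]

lemma mk_surj (q : I.Quo) : ∃ x, I.proj x = q :=
  Submodule.Quotient.mk_surjective I.toSubmodule q

lemma norm_mk_le (x : B) : ‖I.proj x‖ ≤ ‖x‖ := Submodule.Quotient.norm_mk_le I.toSubmodule x

lemma exists_lift (q : I.Quo) (r : ℝ) (h : ‖q‖ < r) : ∃ x, I.proj x = q ∧ ‖x‖ < r := by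
  obtain ⟨x, hx, hx'⟩ := Submodule.Quotient.norm_mk_lt (S := I.toSubmodule) q
    (ε := r - ‖q‖) (by linarith)
  exact ⟨x, hx, by
    have h1 : ‖x‖ < ‖q‖ + (r - ‖q‖) := hx'
    linarith⟩

instance [CompleteSpace B] : CompleteSpace I.Quo :=
  inferInstanceAs (CompleteSpace (B ⧸ I.toSubmodule))

variable [BanachLattice B]

lemma sup_congr {x x' y y' : B} (hx : I.proj x = I.proj x') (hy : I.proj y = I.proj y') :
    I.proj (x ⊔ y) = I.proj (x' ⊔ y') := by
  rw [mk_eq_iff] at hx hy
  have h1 : I.proj (x ⊔ y) = I.proj (x' ⊔ y) := by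
    rw [mk_eq_iff]
    exact I.solid' _ _ hx (abs_sup_sub_sup_le_abs x x' y)
  have h2 : I.proj (x' ⊔ y) = I.proj (x' ⊔ y') := by
    rw [mk_eq_iff, sup_comm x' y, sup_comm x' y']
    exact I.solid' _ _ hy (abs_sup_sub_sup_le_abs y y' x')
  exact h1.trans h2

lemma inf_congr {x x' y y' : B} (hx : I.proj x = I.proj x') (hy : I.proj y = I.proj y') :
    I.proj (x ⊓ y) = I.proj (x' ⊓ y') := by
  have h : ∀ a b : B, a ⊓ b = -(-a ⊔ -b) := fun a b => by rw [neg_sup, neg_neg, neg_neg]
  rw [h x y, h x' y', map_neg, map_neg]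
  congr 1
  exact I.sup_congr (by rw [map_neg, map_neg, hx]) (by rw [map_neg, map_neg, hy])

/-- a representative -/
noncomputable def rep (q : I.Quo) : B := (I.mk_surj q).choose

omit [BanachLattice B] in
lemma mk_rep (q : I.Quo) : I.proj (I.rep q) = q := (I.mk_surj q).choose_spec

noncomputable instance : Max I.Quo := ⟨fun p q => I.proj (I.rep p ⊔ I.rep q)⟩
noncomputable instance : Min I.Quo := ⟨fun p q => I.proj (I.rep p ⊓ I.rep q)⟩

lemma mk_sup (x y : B) : I.proj (x ⊔ y) = I.proj x ⊔ I.proj y :=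
  I.sup_congr (I.mk_rep _).symm (I.mk_rep _).symm

lemma mk_inf (x y : B) : I.proj (x ⊓ y) = I.proj x ⊓ I.proj y :=
  I.inf_congr (I.mk_rep _).symm (I.mk_rep _).symm

/-- the quotient is a lattice, with the operations of the representatives -/
noncomputable instance : Lattice I.Quo := Lattice.mk'
  (fun a b => by
    obtain ⟨x, rfl⟩ := I.mk_surj a
    obtain ⟨y, rfl⟩ := I.mk_surj b
    rw [← mk_sup, ← mk_sup, sup_comm])
  (fun a b c => by
    obtain ⟨x, rfl⟩ := I.mk_surj a
    obtain ⟨y, rfl⟩ := I.mk_surj b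
    obtain ⟨z, rfl⟩ := I.mk_surj c
    rw [← mk_sup, ← mk_sup, ← mk_sup, ← mk_sup, sup_assoc])
  (fun a b => by
    obtain ⟨x, rfl⟩ := I.mk_surj a
    obtain ⟨y, rfl⟩ := I.mk_surj b
    rw [← mk_inf, ← mk_inf, inf_comm])
  (fun a b c => by
    obtain ⟨x, rfl⟩ := I.mk_surj a
    obtain ⟨y, rfl⟩ := I.mk_surj b
    obtain ⟨z, rfl⟩ := I.mk_surj c
    rw [← mk_inf, ← mk_inf, ← mk_inf, ← mk_inf, inf_assoc])
  (fun a b => by
    obtain ⟨x, rfl⟩ := I.mk_surj a
    obtain ⟨y, rfl⟩ := I.mk_surj b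
    rw [← mk_inf, ← mk_sup, sup_inf_self])
  (fun a b => by
    obtain ⟨x, rfl⟩ := I.mk_surj a
    obtain ⟨y, rfl⟩ := I.mk_surj b
    rw [← mk_sup, ← mk_inf, inf_sup_self])

lemma mk_sup' (x y : B) : I.proj (x ⊔ y) = I.proj x ⊔ I.proj y := I.mk_sup x y

lemma mk_inf' (x y : B) : I.proj (x ⊓ y) = I.proj x ⊓ I.proj y := I.mk_inf x y

lemma mk_le_of_le {x y : B} (h : x ≤ y) : I.proj x ≤ I.proj y := by
  rw [← sup_eq_right, ← mk_sup', sup_eq_right.2 h]

lemma exists_le_of_le {p q : I.Quo} (h : p ≤ q) : ∃ x y, x ≤ y ∧ I.proj x = p ∧ I.proj y = q := by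
  obtain ⟨x, rfl⟩ := I.mk_surj p
  obtain ⟨y, rfl⟩ := I.mk_surj q
  refine ⟨x, x ⊔ y, le_sup_left, rfl, ?_⟩
  rw [mk_sup', sup_eq_right.2 h]

lemma mk_hom : IsLatticeHom I.proj := ⟨I.mk_sup', I.mk_inf'⟩

noncomputable instance : BanachLattice I.Quo where
  ordered := by
    refine { add_le_add_left := fun p q h r => ?_ }
    obtain ⟨x, y, hxy, rfl, rfl⟩ := I.exists_le_of_le h
    obtain ⟨z, rfl⟩ := I.mk_surj r
    rw [← map_add, ← map_add]
    exact I.mk_le_of_le (by gcongr)
  smul := by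
    refine ⟨fun r hr p q h => ?_⟩
    obtain ⟨x, y, hxy, rfl, rfl⟩ := I.exists_le_of_le h
    rw [← map_smul, ← map_smul]
    exact I.mk_le_of_le (smul_le_smul_of_nonneg_left hxy hr)
  solid := by
    refine ⟨fun p q h => ?_⟩
    refine le_of_forall_pos_le_add fun ε hε => ?_
    obtain ⟨x, rfl⟩ := I.mk_surj p
    obtain ⟨y, rfl, hy⟩ := I.exists_lift q (‖q‖ + ε) (by linarith)
    have h1 : |I.proj x| ≤ |I.proj y| := h
    have habs : ∀ z : B, |I.proj z| = I.proj |z| := fun z => (I.mk_hom.abs z).symm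
    have h2 : I.proj ((x ⊓ |y|) ⊔ -|y|) = I.proj x := by
      rw [mk_sup', mk_inf', map_neg, ← habs]
      have h3 : I.proj x ≤ |I.proj y| := (le_abs_self' (I.proj x)).trans h1
      have h4 : -|I.proj y| ≤ I.proj x := by
        rw [habs]
        rw [habs, habs] at h1
        obtain ⟨a, b, hab, ha, hb⟩ := I.exists_le_of_le h1
        have h5 : -I.proj |y| ≤ -I.proj |x| := by
          rw [← ha, ← hb, ← map_neg, ← map_neg]
          exact I.mk_le_of_le (neg_le_neg hab)
        refine h5.trans ?_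
        rw [← map_neg]
        exact I.mk_le_of_le (neg_le.1 (neg_le_abs x))
      rw [inf_eq_left.2 h3, sup_eq_left.2 h4]
    rw [← h2]
    refine (I.norm_mk_le _).trans ((norm_le_of_abs_le ?_).trans hy.le)
    rw [abs_le']
    constructor
    · exact sup_le inf_le_right ((neg_nonpos.2 (abs_nonneg y)).trans (abs_nonneg y))
    · rw [neg_sup, neg_neg]
      exact inf_le_right
  complete := inferInstance
where
  le_abs_self' (p : I.Quo) : p ≤ |p| := le_sup_left

lemma isQuotientMap_mk : IsQuotientMap I.proj := ⟨I.mk_hom, I.norm_mk_le, I.exists_lift⟩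

end ClosedIdeal

end

/-! ### Descending maps along quotient maps -/

section

variable {X : Type u} {Y : Type v} {Z : Type w}
  [NormedAddCommGroup X] [Lattice X] [NormedSpace ℝ X] [BanachLattice X]
  [NormedAddCommGroup Y] [Lattice Y] [NormedSpace ℝ Y] [BanachLattice Y]
  [NormedAddCommGroup Z] [Lattice Z] [NormedSpace ℝ Z] [BanachLattice Z]

omit [BanachLattice X] [BanachLattice Y] [BanachLattice Z] in
/-- A lattice homomorphism which vanishes on the kernel of a quotient map descends. -/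
theorem exists_desc {Q : X →L[ℝ] Y} (hQ : IsQuotientMap Q) {S : X →L[ℝ] Z} (hS : IsLatticeHom S)
    (h : ∀ x, Q x = 0 → S x = 0) :
    ∃ S' : Y →L[ℝ] Z, IsLatticeHom S' ∧ (∀ x, S' (Q x) = S x) ∧ ‖S'‖ ≤ ‖S‖ := by
  have hsurj : ∀ y, ∃ x, Q x = y := fun y => by
    obtain ⟨x, hx, -⟩ := hQ.lift y (‖y‖ + 1) (by linarith)
    exact ⟨x, hx⟩
  choose r hr using hsurj
  have hkey : ∀ x y, Q x = y → S (r y) = S x := by
    intro x y hxy
    have h1 := h (r y - x) (by rw [map_sub, hr, hxy, sub_self])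
    rw [map_sub] at h1
    exact sub_eq_zero.1 h1
  let L : Y →L[ℝ] Z := LinearMap.mkContinuous
    { toFun := fun y => S (r y)
      map_add' := fun y y' => by
        rw [hkey (r y + r y') (y + y') (by rw [map_add, hr, hr]), map_add]
      map_smul' := fun c y => by
        rw [hkey (c • r y) (c • y) (by rw [map_smul, hr]), map_smul]
        rfl } ‖S‖ fun y => by
          refine le_of_forall_pos_le_add fun ε hε => ?_
          obtain ⟨x, hx, hx'⟩ := hQ.lift y (‖y‖ + ε / (‖S‖ + 1)) (by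
            have : 0 < ε / (‖S‖ + 1) := by positivity
            linarith)
          change ‖S (r y)‖ ≤ _
          rw [hkey x y hx]
          calc ‖S x‖ ≤ ‖S‖ * ‖x‖ := S.le_opNorm x
            _ ≤ ‖S‖ * (‖y‖ + ε / (‖S‖ + 1)) := by gcongr
            _ = ‖S‖ * ‖y‖ + ε * (‖S‖ / (‖S‖ + 1)) := by ring
            _ ≤ ‖S‖ * ‖y‖ + ε * 1 := by
              gcongr
              rw [div_le_one (by positivity)]
              linarith
            _ = ‖S‖ * ‖y‖ + ε := by ring
  have hL : ∀ x, L (Q x) = S x := fun x => hkey x (Q x) rfl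
  refine ⟨L, ⟨fun y y' => ?_, fun y y' => ?_⟩, hL,
    LinearMap.mkContinuous_norm_le _ (norm_nonneg _) _⟩
  · rw [← hr y, ← hr y', ← hQ.hom.sup, hL, hL, hL, hS.sup]
  · rw [← hr y, ← hr y', ← hQ.hom.inf, hL, hL, hL, hS.inf]

end

end Pool.Agent.X171.SP
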