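import Pool.Agent.X171.SP.Main

/-!
# Semiprojective Banach lattices: the main theorem
-/

open Filter
open scoped Topology BoundedContinuousFunction

namespace Pool.Agent.X171.SP

open Pool.Agent.X171.BL

universe u v w

/-- **Theorem.** If `A` is semiprojective then, for every separable Banach lattice `X` and every
closed ideal `J` of `X`, every contractive lattice homomorphism `A → X / J` is `1⁺`-liftable. -/
theorem lift_of_semiprojective {A : Type u} [NormedAddCommGroup A] [Lattice A] [NormedSpace ℝ A]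
    (hA : Semiprojective.{u, v} A) {X : Type v} [NormedAddCommGroup X] [Lattice X]
    [NormedSpace ℝ X] [BanachLattice X] [TopologicalSpace.SeparableSpace X] (J : ClosedIdeal X)
    (φ : A →L[ℝ] J.Quo) (hφ : IsLatticeHom φ) (hφ1 : ‖φ‖ ≤ 1) : OnePlusLiftable J φ := by
  obtain ⟨M, hM, hM1, hM2, hM3⟩ := exists_approx J
  set L := Bl hM hM1 hM2 hM3 with hL
  have hmem : ∀ b : L.Ty, ∃ x, Wit J M (L.incl b) x := fun b => b.2
  have hsep : TopologicalSpace.SeparableSpace L.Ty := by
    have h1 : TopologicalSpace.IsSeparable (L.toSubmodule : Set (ℕ →ᵇ X)) := isSeparable_wit hM1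
    exact h1.separableSpace
  -- the map `x ↦ (M k x)`
  have hW : ∀ x, Wit J M (seqv hM1 x) x := fun x => ⟨fun k => by
    rw [seqv_apply, sub_self]
    exact J.toSubmodule.zero_mem, by simp [seqv_apply]⟩
  let Φ : X →L[ℝ] L.Ty := LinearMap.mkContinuous
    { toFun := fun x => ⟨seqv hM1 x, ⟨x, hW x⟩⟩
      map_add' := fun x y => by
        apply L.incl_inj
        ext k
        exact map_add (M k) x y
      map_smul' := fun r x => by
        apply L.incl_inj
        ext k
        exact map_smul (M k) r x } 1 fun x => by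
          rw [one_mul]
          change ‖seqv hM1 x‖ ≤ ‖x‖
          exact bcf_norm_le (norm_nonneg x) fun k => hM1 k x
  have hΦ : IsLatticeHom Φ := by
    refine ⟨fun x y => ?_, fun x y => ?_⟩
    · apply L.incl_inj
      ext k
      exact (hM k).sup x y
    · apply L.incl_inj
      ext k
      exact (hM k).inf x y
  have hΦ1 : ‖Φ‖ ≤ 1 := LinearMap.mkContinuous_norm_le _ zero_le_one _
  have hΦk : ∀ x k, L.incl (Φ x) k = M k x := fun x k => rfl
  have hMJ : ∀ x ∈ J, ∀ k, M k x ∈ J := by
    intro x hx k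
    have h1 := J.toSubmodule.sub_mem hx (hM2 k x)
    rwa [sub_sub_cancel] at h1
  obtain ⟨Θ, hΘ, hΘ1, hΘ2⟩ := exists_desc J.isQuotientMap_mk
    (S := (JB L J).proj.comp Φ) ((JB L J).mk_hom.comp hΦ) (fun x hx => by
      rw [J.mk_eq_zero] at hx
      exact ((JB L J).mk_eq_zero).2 fun k => hMJ x hx k)
  have hΘn : ‖Θ‖ ≤ 1 := by
    refine hΘ2.trans (ContinuousLinearMap.opNorm_le_bound _ zero_le_one fun x => ?_)
    rw [one_mul]
    refine ((JB L J).norm_mk_le _).trans ?_
    exact bcf_norm_le (norm_nonneg x) fun k => hM1 k x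
  -- the closure of the union of the ideals
  have hcl : ((JB L J : ClosedIdeal L.Ty) : Set L.Ty) = closure (⋃ n, (IB L J n : Set L.Ty)) := by
    apply Set.Subset.antisymm
    · intro b hb
      have hb' : ∀ k, L.incl b k ∈ J := hb
      obtain ⟨x, hx⟩ := hmem b
      have hxJ : x ∈ J := by
        rw [← J.mk_eq_zero, ← hx.proj hM2 0, J.mk_eq_zero]
        exact hb' 0
      have hb0 : Tendsto (fun k => L.incl b k) atTop (𝓝 0) := by
        have h1 := hx.2.add (hM3 x hxJ)
        simpa using h1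
      rw [Metric.mem_closure_iff]
      intro ε hε
      obtain ⟨N, hN⟩ := Metric.tendsto_atTop.1 hb0 (ε / 2) (by positivity)
      have hcJ : ∀ k, trunc N (L.incl b) k ∈ J := by
        intro k
        rw [trunc_apply]
        split_ifs
        · exact hb' k
        · exact J.toSubmodule.zero_mem
      have hcW : Wit J M (trunc N (L.incl b)) 0 := by
        refine ⟨fun k => ?_, ?_⟩
        · rw [map_zero, sub_zero]
          exact hcJ k
        · refine tendsto_const_nhds.congr' ?_
          filter_upwards [eventually_ge_atTop N] with k hk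
          rw [map_zero, sub_zero, trunc_apply, if_neg (not_lt.2 hk)]
      obtain ⟨c, hc⟩ : ∃ c : L.Ty, L.incl c = trunc N (L.incl b) :=
        ⟨⟨trunc N (L.incl b), ⟨0, hcW⟩⟩, rfl⟩
      refine ⟨c, Set.mem_iUnion.2 ⟨N, fun k => ?_, fun k hk => ?_⟩, ?_⟩
      · rw [hc]
        exact hcJ k
      · rw [hc, trunc_apply, if_neg (not_lt.2 hk)]
      · rw [dist_eq_norm, ← L.norm_incl, map_sub, hc]
        refine (norm_sub_trunc (by positivity : (0 : ℝ) ≤ ε / 2) fun k hk => ?_).trans_lt
          (by linarith)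
        have := hN k hk
        rw [dist_zero_right] at this
        exact this.le
    · refine closure_minimal (Set.iUnion_subset fun n b hb => hb.1) (JB L J).closed'
  -- semiprojectivity
  obtain ⟨n, hn⟩ := hA L.Ty (IB L J) (JB L J)
    (fun n b hb => ⟨hb.1, fun k hk => hb.2 k (by omega)⟩) hcl (Θ.comp φ) (hΘ.comp hφ) (by
      refine (ContinuousLinearMap.opNorm_comp_le _ _).trans ?_
      calc ‖Θ‖ * ‖φ‖ ≤ 1 * 1 := by gcongr
        _ = 1 := one_mul 1)
  intro ε hε
  obtain ⟨ψ, hψ, hψ1, hψ2⟩ := hn ε hε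
  -- evaluation at `n`
  let ev : L.Ty →L[ℝ] X := LinearMap.mkContinuous
    { toFun := fun b => L.incl b n
      map_add' := fun _ _ => rfl
      map_smul' := fun _ _ => rfl } 1 fun b => by
        rw [one_mul]
        exact (L.incl b).norm_coe_le_norm n
  have hev : IsLatticeHom ev := ⟨fun _ _ => rfl, fun _ _ => rfl⟩
  obtain ⟨E, hE, hE1, hE2⟩ := exists_desc (IB L J n).isQuotientMap_mk hev (fun b hb => by
    rw [(IB L J n).mk_eq_zero] at hb
    exact hb.2 n le_rfl)
  have hEn : ‖E‖ ≤ 1 := hE2.trans (LinearMap.mkContinuous_norm_le _ zero_le_one _)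
  refine ⟨E.comp ψ, hE.comp hψ, fun a => ?_, ?_⟩
  · obtain ⟨b, hb⟩ := (IB L J n).mk_surj (ψ a)
    obtain ⟨x, hx⟩ := J.mk_surj (φ a)
    have h1 : (JB L J).proj b = (JB L J).proj (Φ x) := by
      rw [hψ2 a b hb]
      change Θ (φ a) = _
      rw [← hx, hΘ1]
      rfl
    rw [(JB L J).mk_eq_iff] at h1
    have h2 : L.incl b n - M n x ∈ J := h1 n
    change J.proj (E (ψ a)) = φ a
    rw [← hb, hE1, ← hx]
    change J.proj (L.incl b n) = _
    rw [(J.mk_eq_iff).2 h2, proj_M hM2]
  · refine (ContinuousLinearMap.opNorm_comp_le _ _).trans ?_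
    calc ‖E‖ * ‖ψ‖ ≤ 1 * (1 + ε) := by gcongr
      _ = 1 + ε := one_mul _

end Pool.Agent.X171.SP
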